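import Pool.Agent.SZG.StmtsR

/-!
# Squad SZG, block D, part 2: the determinant row in the product form (rows ord 111 ff)

Same rules as `SZG/StmtsD.lean`: file `Pool/Agent/HelperNN_SZG/XXX.lean`, import
`Pool.Agent.SZG.StmtsD2` (and proved files), namespace `Pool.Agent.SZG.HNN`.
-/

set_option autoImplicit false

namespace Pool.Agent.SZG

open scoped BigOperators
open Pool.Agent.THS (Short nv qv)

/-- **Row MNP** (determinant: the rows of a group are modulo `ε` in the span of `c` functions, only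
the PRODUCTS of the two factors are bounded; proved by helper40 in `Helper40_SZG/MNP.lean`). -/
def MnpStmt : Prop :=
  ∀ (K : Type) [Field K] (v : AbsoluteValue K ℝ) (ι G : Type) [Fintype ι] [DecidableEq ι]
    [Fintype G] (c : ℕ) (γ : ι → G) (M : Matrix ι ι K) (A : ι → Fin c → K)
    (B : G → Fin c → ι → K) (ω χ : ι → ℝ) (ε : ℝ), IsNonarchimedean v → 0 ≤ ε → ε ≤ 1 →
    (∀ i, 0 < ω i) → (∀ j, 0 < χ j) → (∀ i s j, v (A i s) * v (B (γ i) s j) ≤ ω i * χ j) →
    (∀ i j, v (M i j - ∑ s, A i s * B (γ i) s j) ≤ ε * (ω i * χ j)) →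
    v M.det ≤ ε ^ (Fintype.card ι - c * Fintype.card G) * ((∏ i, ω i) * ∏ j, χ j)

end Pool.Agent.SZG
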