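import Pool.Agent.SZG.Defs

/-!
SZG, block W: algebra of the data `QS`, weights, upper bounds of `T i` at all places. Complete proofs
in the docstrings. `|y|` is `nv v y`.
-/

namespace Pool.Agent.SZG

open scoped BigOperators
open Pool.Agent.THS

/-- **Row RGI** (Fourier inversion on a group; uses THS.Ort). PROOF. As THS row RQI: insert the
definition of RG and exchange the sums; `Ort` for `a + d`, `a + c`, cast to K: the inner sum over b is
2^g if `a + d = a + c`, that is `c = d`, and 0 otherwise. -/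
def RgiStmt : Prop :=
  ∀ (g : ℕ) (K I : Type) [Field K] [AddCommGroup I] (T : I → Ch g → K) (a d : Ch g) (i j : I),
    ∑ b : Ch g, (sgn b (a + d) : K) * RG T a b i j
      = (2 : K) ^ g * (T (i + j) (a + d) * T (i - j) d)

/-- **Row QSA** (algebra of the factors of automorphy). PROOF. Let m, n in L0. `eadd` with `ene`:
`e m 0 = 1` (e m (0+0) = e m 0 ^ 2), `e m (-i) = (e m i)⁻¹`, `e m (n • i) = e m i ^ n`. `per` with
m = 0: `T i a = c 0 * e 0 i * T i a`, so `c 0 * e 0 i = 1` (T i <> 0), `c 0 = 1` (i = 0), `e 0 i = 1`.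
`T (i+m+n)` in two ways: `c (m+n) e (m+n) i = c n e n (i+m) c m e m i`; i = 0:
`c (m+n) = c m c n e n m` and, dividing, `e (m+n) i = e m i e n i`; exchange m and n:
`e n m = e m n`. Evenness: `T (-m) a = T m a`, both are `c (-m) T 0 a`, `c m T 0 a`, so
`c (-m) = c m`; `1 = c 0 = c (m + (-m)) = c m c (-m) e m (-m)`, so `c m ^ 2 = e m m`. Powers in the
first variable: induction (`e (n • m) i = e m i ^ n`, n a natural number; and
`e (-m) i = (e m i)⁻¹`, hence `zsmul`). -/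
def QsaStmt : Prop :=
  ∀ (K I : Type) [Field K] [AddCommGroup I] (g E : ℕ) (L0 : AddSubgroup I) (c : I → K)
    (e : I → I → K) (s : K) (T : I → Ch g → K) (x : I → Ch g × Ch g → K),
    QS K I g E L0 c e s T x → ∀ m ∈ L0, ∀ n ∈ L0,
    c 0 = 1 ∧ c (-m) = c m ∧ c m ^ 2 = e m m ∧ c (m + n) = c m * c n * e m n ∧ e m n = e n m ∧
      (∀ i, e (m + n) i = e m i * e n i) ∧ (∀ i, e (-m) i = (e m i)⁻¹) ∧
      (∀ (u : ℤ) (i : I), e (u • m) i = e m i ^ u) ∧ (∀ (u : ℤ) (i : I), e m (u • i) = e m i ^ u)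

/-- **Row WXC** (consequences of `WX`; elementary algebra of positive real numbers). PROOF. `X 0 k = 1`
(xadd with 0 + 0, positive), `X k 0 = 1` (xsymm), `W 0 = 1` (add with 0 + 0). `X (-i) j = (X i j)⁻¹`;
integer multiples by induction (`zpow_add₀`, `Int.induction_on`), second variable by `xsymm`.
`1 = W (i + -i) = W i * W i * (X i i)⁻¹`, so `X i i = W i ^ 2`. `W (i - j) = W i * W j * (X i j)⁻¹`, so
`W (i+j) * W (i-j) = W i^2 * W j^2`. `W (u • i) = W i ^ (u^2)`: induction on u for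
`u+1`: `W (u•i + i) = W(i)^(u^2) W i X(i,i)^u = W(i)^(u^2+1+2u)`; negative u by `neg`.
Periods: `W (i + m) = W i * W m * X i m = v (c m) * v (e m i) * W i`. -/
def WxcStmt : Prop :=
  ∀ (K I : Type) [Field K] [AddCommGroup I] (v : AbsoluteValue K ℝ) (L0 : AddSubgroup I)
    (c : I → K) (e : I → I → K) (W : I → ℝ) (X : I → I → ℝ), WX v L0 c e W X →
    W 0 = 1 ∧ (∀ i, X i i = W i ^ 2) ∧ (∀ i j, X (-i) j = (X i j)⁻¹) ∧
      (∀ (u : ℤ) (i j : I), X (u • i) j = X i j ^ u ∧ X i (u • j) = X i j ^ u) ∧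
      (∀ (u : ℤ) (i : I), W (u • i) = W i ^ (u ^ 2)) ∧
      (∀ i j, W (i + j) * W (i - j) = W i ^ 2 * W j ^ 2) ∧
      (∀ i j, W (i + j) * X i (-j) = W i * W j) ∧
      (∀ m ∈ L0, ∀ i, W (i + m) = v (c m) * v (e m i) * W i)

/-- **Row WTX** (the explicit weights; uses QSA). PROOF. Put `b i j = log v(e(E•i) j)`. By QSA
(`E • i` in L0, `E • (i+i') = E•i + E•i'`) b is additive in i, by `eadd` in j (all values of v are
positive, `ene`). Symmetry: `E * b i j = log v (e (E•i) (E•j))` (`e m (E•j) = e m j ^ E`), and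
`e (E•i) (E•j) = e (E•j) (E•i)` (QSA), so `E * b i j = E * b j i`, divide by E. Then
`b (i+j) (i+j) = b i i + b j j + 2 b i j`, `b (-i) (-i) = b i i`: this gives `add` (exponent
b(i,j) * 2/(2E) = b(i,j)/E) and `neg`. For m in L0: `e (E•m) i = (e m i)^E` (QSA), so
`Xf m i = exp (log (v (e m i)))= v (e m i)`; and
`Wf m = exp (log (v (e m m))/2)`, `v (e m m) = v (c m)^2`, so `Wf m = v (c m)`. -/
def WtxStmt : Prop :=
  ∀ (K I : Type) [Field K] [AddCommGroup I] (v : AbsoluteValue K ℝ) (g E : ℕ)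
    (L0 : AddSubgroup I) (c : I → K) (e : I → I → K) (s : K) (T : I → Ch g → K)
    (x : I → Ch g × Ch g → K), QS K I g E L0 c e s T x → WX v L0 c e (Wf v E e) (Xf v E e)

/-- **Row DBL** (duplication inequality at every place; uses THS.Lar, THS.Lna). PROOF. `rie` with a = 0
(`0 + c = c`, `i + i = 2 • i`, `i - i = 0`, `i + 0 = i`, `i - 0 = i`):
`sum_c sgn b c T_i(c)^2 = RG T 0 b i 0 = s x_i(0,b) x_0(0,b)`,
`sum_c sgn b c (T_(2i)(c) T_0(c)) = RG T 0 b i i = s x_i(0,b)^2`,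
`sum_c sgn b c T_0(c)^2 = s x_0(0,b)^2`; so the hypothesis of Lar/Lna holds with S = T i,
D = T (2 • i), Z = T 0. -/
def DblStmt : Prop :=
  ∀ (K I : Type) [Field K] [AddCommGroup I] (v : AbsoluteValue K ℝ) (g E : ℕ)
    (L0 : AddSubgroup I) (c : I → K) (e : I → I → K) (s : K) (T : I → Ch g → K)
    (x : I → Ch g × Ch g → K), QS K I g E L0 c e s T x → ∀ i : I,
    (v 2 = 2 → nv v (T i) ^ 4 ≤ 4 ^ g * nv v (T (2 • i)) * nv v (T 0) ^ 3) ∧
    (IsNonarchimedean v → v 2 ^ (2 * g) * nv v (T i) ^ 4 ≤ nv v (T (2 • i)) * nv v (T 0) ^ 3)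

/-- **Row ORB** (doubling orbit; pure combinatorics). PROOF. There are `m < n` with
`2^m = 2^n mod E` (infinite pigeonhole, `Finite.exists_ne_map_eq_of_infinite` for
`n |-> (2^n : ZMod E)`, E > 0). Then `2^n • i = 2^m • i + E • (q • i)`, so `h (2^n • i) = h (2^m • i)`. -/
def OrbStmt : Prop :=
  ∀ (I : Type) [AddCommGroup I] (E : ℕ) (h : I → ℝ), 0 < E → (∀ i j : I, h (i + E • j) = h i) →
    ∀ i : I, ∃ m n : ℕ, m < n ∧ h (2 ^ n • i) = h (2 ^ m • i)

/-- **Row PRG** (maximum principle; uses ORB). PROOF. `h 0 > 0`, `h i > 0`. Suppose `C h(0)^3 < h(i)^3`.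
Let `i_n = 2^n • i`. By induction `C h(0)^3 < h(i_n)^3` and `h(i_n) < h(i_(n+1))`: from
`h(i_n)^4 <= C h(i_(n+1)) h(0)^3 < h(i_n)^3 h(i_(n+1))` (as `h(i_(n+1)) > 0`), so
`h(i_n) < h(i_(n+1))`, and the cube grows. So h is strictly increasing along the orbit
(`strictMono_nat_of_lt_succ`), against ORB. -/
def PrgStmt : Prop :=
  ∀ (I : Type) [AddCommGroup I] (E : ℕ) (h : I → ℝ) (C : ℝ), 0 < E → 0 < C →
    (∀ i j : I, h (i + E • j) = h i) → (∀ i, 0 < h i) →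
    (∀ i, h i ^ 4 ≤ C * h (2 • i) * h 0 ^ 3) → ∀ i, h i ^ 3 ≤ C * h 0 ^ 3

/-- **Row TBG** (upper bound of `T i` at every place; uses QSA, WXC, DBL, PRG). PROOF. `h i = |T i|/W i`.
Periodic: for m in L0 (m = E • j) `|T (i+m)| = v (c m) v (e m i) |T i|` (`per`, nv of a multiple) and
`W (i+m)` has the same factor (WXC). Positive, as `T i <> 0`. `W (2 • i) = W i ^ 4`, `W 0 = 1` (WXC):
DBL divided by `W i ^ 4` is the hypothesis of PRG with C = 4^g, resp. `C = (v 2^(2g))⁻¹` (v 2 > 0).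
Conclusion of PRG times `W i ^ 3`: `|T i|^3 <= 4^g (|T 0| W i)^3 <= (2^g |T 0| W i)^3`, resp.
`v 2^(3g) |T i|^3 <= v 2^(2g) |T i|^3 <= (|T 0| W i)^3` (nonarchimedean: v 2 <= 1). Cube roots
(`lt_of_pow_lt_pow_left`, `pow_le_pow_iff_left`). -/
def TbgStmt : Prop :=
  ∀ (K I : Type) [Field K] [AddCommGroup I] (v : AbsoluteValue K ℝ) (g E : ℕ)
    (L0 : AddSubgroup I) (c : I → K) (e : I → I → K) (s : K) (T : I → Ch g → K)
    (x : I → Ch g × Ch g → K) (W : I → ℝ) (X : I → I → ℝ), QS K I g E L0 c e s T x →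
    WX v L0 c e W X → (2 : K) ≠ 0 → ∀ i : I,
    (v 2 = 2 → nv v (T i) ≤ 2 ^ g * (nv v (T 0) * W i)) ∧
    (IsNonarchimedean v → v 2 ^ g * nv v (T i) ≤ nv v (T 0) * W i)

/-- **Row MPB** (upper bound of the matrix entries; uses QSA, WXC, TBG). PROOF. `Mp l e T Z b k a =
e(l•b, Z)^(-k) T(lkZ + b)_a`. `l • b` in L0, so `v (e (l•b) Z) = X (l•b) Z = X b Z ^ l`, and
`W ((l*k)•Z + b) = W ((l*k)•Z) W b X ((l*k)•Z) b = W((l*k)•Z) W b X Z b ^ (l k)`; the factor
`v (e (l•b) Z)^(-k) = X b Z ^ (-l k)` cancels it exactly. So TBG for `i = (l*k)•Z + b`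
(`v (T i a) <= |T i|`) gives everything. -/
def MpbStmt : Prop :=
  ∀ (K I : Type) [Field K] [AddCommGroup I] (v : AbsoluteValue K ℝ) (g E : ℕ)
    (L0 : AddSubgroup I) (c : I → K) (e : I → I → K) (s : K) (T : I → Ch g → K)
    (x : I → Ch g × Ch g → K) (W : I → ℝ) (X : I → I → ℝ) (l : ℕ) (Z b : I),
    QS K I g E L0 c e s T x → WX v L0 c e W X → (2 : K) ≠ 0 → l • b ∈ L0 → ∀ (k : ℕ) (a : Ch g),
    (v 2 = 2 → v (Mp l e T Z b k a) ≤ 2 ^ g * (W b * (nv v (T 0) * W ((l * k) • Z)))) ∧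
    (IsNonarchimedean v →
      v 2 ^ g * v (Mp l e T Z b k a) ≤ W b * (nv v (T 0) * W ((l * k) • Z)))

/-- **Row MPP** (periods in the row index; uses QSA). PROOF. `m` and `b` with `l • b`, `m` in L0.
`T (lkZ + (b + m)) = c m * e m (lkZ + b) * T (lkZ + b)`, `e m (lkZ + b) = e m Z ^ (l k) * e m b`
(`eadd`), and `e (l • (b+m)) Z = e (l•b) Z * e m Z ^ l` (QSA: `l•m` in L0). The powers of `e m Z`
cancel. -/
def MppStmt : Prop :=
  ∀ (K I : Type) [Field K] [AddCommGroup I] (g E : ℕ) (L0 : AddSubgroup I) (c : I → K)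
    (e : I → I → K) (s : K) (T : I → Ch g → K) (x : I → Ch g × Ch g → K) (l : ℕ) (Z b m : I),
    QS K I g E L0 c e s T x → l • b ∈ L0 → m ∈ L0 → ∀ (k : ℕ) (a : Ch g),
    Mp l e T Z (b + m) k a = c m * e m b * Mp l e T Z b k a

end Pool.Agent.SZG
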