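import Pool.Agent.THS.StmtsL

/-!
# Squad SZG, block D: the shortness induction (step (5) of note 3674) and determinants

Pure algebra over a field `K` with a nonarchimedean absolute value `v`, no theta functions.
`Short v c ε F` (`THS/StmtsL.lean`): `F(k,s) = sum_(j<c) A_j(k) B_j(s)` modulo `ε`, all
`v (A_j k), v (B_j s) <= 1`; the calculus is `THS.ShmStatement`, proved:
`Pool.Agent.THS.H27.shm` (`Pool/Agent/Helper27_THS/SHM.lean`; there also `short_of_fintype`).
`nv v x = max_i v (x i)`, `qv v` = number of elements of the residue field.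

All rows: file `Pool/Agent/HelperNN_SZG/XXX.lean`, import `Pool.Agent.SZG.StmtsD` (and proved THS
files), namespace `Pool.Agent.SZG.HNN`.
-/

set_option autoImplicit false

namespace Pool.Agent.SZG

open scoped BigOperators
open Pool.Agent.THS (Short nv qv)

/-- **Row SEL** (calculus; uses nothing). PROOF. (1) `A = 0`, the sum is 0. (2) `-F`: negate `A`.
(3) a function of `k` alone: length 1, `A = f`, `B = 1`; (4) a function of `s` alone. (5) product
with a function of `k`: replace `A_j(k)` by `f(k) A_j(k)`. (6) selection: `F_(o k)(k,s)` is the sum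
over `a` of `1_(o k = a) F_a(k,s)`; put the families together (index `ι × Fin c`,
`A_(a,j)(k) = if o k = a then A^a_j(k) else 0`, `B_(a,j) = B^a_j`); `short_of_fintype`.
(7) `k ↦ k + m`, `s ↦ -s` (also `shm` (5)). -/
def SelStmt : Prop :=
  ∀ (K : Type) [Field K] (v : AbsoluteValue K ℝ), IsNonarchimedean v →
    (∀ (c : ℕ) (ε : ℝ) (F : ℤ → ℤ → K), Short v c ε F → Short v c ε (fun k s => -F k s)) ∧
    (∀ (ε : ℝ) (f : ℤ → K), 0 ≤ ε → (∀ k, v (f k) ≤ 1) → Short v 1 ε (fun k _ => f k)) ∧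
    (∀ (ε : ℝ) (f : ℤ → K), 0 ≤ ε → (∀ s, v (f s) ≤ 1) → Short v 1 ε (fun _ s => f s)) ∧
    (∀ (c : ℕ) (ε : ℝ) (f : ℤ → K) (F : ℤ → ℤ → K), 0 ≤ ε → (∀ k, v (f k) ≤ 1) → Short v c ε F →
      Short v c ε (fun k s => f k * F k s)) ∧
    (∀ (n c : ℕ) (ε : ℝ) (ι : Type) [Fintype ι] (o : ℤ → ι) (F : ι → ℤ → ℤ → K),
      Fintype.card ι = n → 0 ≤ ε → (∀ a, Short v c ε (F a)) →
      Short v (n * c) ε (fun k s => F (o k) k s)) ∧
    (∀ (c : ℕ) (ε : ℝ) (F : ℤ → ℤ → K) (m : ℤ), Short v c ε F →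
      Short v c ε (fun k s => F (k + m) (-s)) ∧ Short v c ε (fun k s => F (k + m) s))

/-- **Row SUM** (summation over `k` in steps of two; uses nothing). PROOF.
`F(k+1,s) - F(k-1,s) = sum_j A_j(k) B_j(s)` modulo `ε`. (a) For `h : ℤ → K`, `v (h q) <= 1`, there is
`H : ℤ → K` with `H 0 = 0`, `H (q+1) - H q = h q`, `v (H q) <= 1`: `H q = sum_(i < q) h i` for
`q >= 0`, `H (-q) = - sum_(i < q) h (-i-1)` (sums of integral elements are integral, ultrametric).
(b) `a_j(2q) = H(q)` for `h(q) = A_j(2q+1)`, `a_j(2q+1) = H(q)` for `h(q) = A_j(2q+2)`; then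
`a_j(k+1) - a_j(k-1) = A_j(k)` for all `k`, `a_j(0) = a_j(1) = 0`. (c) `G = F - sum_j a_j(k) B_j(s)`
satisfies `v (G(k+1,s) - G(k-1,s)) <= ε`, so (induction over `q` in both directions, ultrametric)
`v (G(2q,s) - G(0,s)) <= ε`, `v (G(2q+1,s) - G(1,s)) <= ε`, and `G(0,s) = F(0,s)`,
`G(1,s) = F(1,s)`. So `F = sum_j a_j B_j + 1_(k even) F(0,s) + 1_(k odd) F(1,s)` modulo `ε`. -/
def SumStmt : Prop :=
  ∀ (K : Type) [Field K] (v : AbsoluteValue K ℝ) (c : ℕ) (ε : ℝ) (F : ℤ → ℤ → K),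
    IsNonarchimedean v → 0 ≤ ε → (∀ k s, v (F k s) ≤ 1) →
    Short v c ε (fun k s => F (k + 1) s - F (k - 1) s) → Short v (c + 2) ε F

/-- **Row SHO** (the shortness lemma, step (5); uses SEL, SUM; and `THS.H27.shm`). `n` is the number
of the coordinates, `θ^L` the precision.
PROOF. Induction on `L >= 1` (for `L = 0`: length 0, since `v (r a k s) <= 1`). Write
`ρ_a(k) = r a k 0` (`v <= 1`), `E_a = r a k s - ρ_a(k)`, `μ = E_(o k)`, so `r (o k) k s = 1 + μ(k,s)`
by (h3), `v E_a <= θ`, `v μ <= θ` by (h2). `L = 1`: `r a` is `ρ_a` modulo `θ`: length 1. Step: let all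
`r a` have length `c` modulo `θ^L`. `E_a`: length `c + 1`; `μ` (selection, SEL (6)): `n (c + 1)`;
`μ(k,-s)` the same. PRODUCTS (`shm` (4) with `ε = θ^L`, `δ = θ`): `E_a(k,s) μ(k,-s)` and
`μ(k+1,s) μ(k-1,-s)` have length `(c+1) n (c+1)`, `(n (c+1))^2` modulo `θ^(L+1)`.
(A) by (h4): `E_a(k,s) + ρ_a(k) μ(k,-s) = r a k s * r (o k) k (-s) - ρ_a(k) - E_a(k,s) μ(k,-s)` has
length `c0 + 1 + n (c+1)^2` modulo `θ^(L+1)`. (B) selection `a = o k` (`ρ_(o k) = 1`):
`μ(k,s) + μ(k,-s)` has length `n` times that. (C) by (h5): `μ(k+1,s) + μ(k-1,-s) =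
r (o (k+1)) (k+1) s * r (o (k-1)) (k-1) (-s) - 1 - μ(k+1,s) μ(k-1,-s)`. (D) (C) minus (B) with `k`
replaced by `k - 1`: `μ(k+1,s) - μ(k-1,s)` is short modulo `θ^(L+1)`. SUM: `μ` is short. (A): `E_a` is
short (SEL (5), (7)), so `r a` is short. The lengths depend only on `c0`, `n`, `L`. -/
def ShoStmt : Prop :=
  ∀ c0 n L : ℕ, ∃ c : ℕ, ∀ (K : Type) [Field K] (v : AbsoluteValue K ℝ) (θ : ℝ) (ι : Type)
    [Fintype ι] (o : ℤ → ι) (r : ι → ℤ → ℤ → K), Fintype.card ι = n → IsNonarchimedean v →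
    0 < θ → θ < 1 → (∀ a k s, v (r a k s) ≤ 1) → (∀ a k s, v (r a k s - r a k 0) ≤ θ) →
    (∀ k, r (o k) k 0 = 1) →
    (∀ a, Short v c0 0 (fun k s => r a k s * r (o k) k (-s))) →
    Short v c0 0 (fun k s => r (o (k + 1)) (k + 1) s * r (o (k - 1)) (k - 1) (-s)) →
    ∀ a, Short v c (θ ^ L) (r a)

/-- **Row INV** (division by `1 + μ`; uses SEL; and `THS.H27.shm`). PROOF. `v (f - 1) <= θ < 1`, so
`v f = 1` and `1 / f = sum_(i < L) (1 - f)^i + (1 - f)^L / f`, the last term is `<= θ^L`. `1 - f` has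
length `c + 1` modulo `θ^L` and is `<= 1`; powers: `shm` (4) with `ε = θ^L`, `δ = 1`, length
`(c+1)^i`; the sum has length `sum_(i < L) (c+1)^i`. -/
def InvStmt : Prop :=
  ∀ c L : ℕ, ∃ c' : ℕ, ∀ (K : Type) [Field K] (v : AbsoluteValue K ℝ) (θ : ℝ) (f : ℤ → ℤ → K),
    IsNonarchimedean v → 0 < θ → θ < 1 → (∀ k s, v (f k s - 1) ≤ θ) → Short v c (θ ^ L) f →
    Short v c' (θ ^ L) (fun k s => (f k s)⁻¹)

/-- **Row ZKS** (the factor `ζ^(k s)`; uses nothing). PROOF. `v ζ = 1`, `v (ζ^s - 1) <= θ` for every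
integer `s` (`ζ^s - 1 = (ζ - 1)(...)` for `s >= 0`; `ζ^(-s) - 1 = -ζ^(-s) (ζ^s - 1)`). For `k >= 0`:
`ζ^(k s) = (1 + (ζ^s - 1))^k = sum_j binom(k,j) (ζ^s - 1)^j`; the terms with `j >= L` are `<= θ^L`
(binomial coefficients are integers: `v <= 1`). So `A_j(k) = binom(k,j)`, `B_j(s) = (ζ^s - 1)^j`,
`j < L`, for `k >= 0`. For `k < 0` use `ζ^(k s) = (1 + (ζ^(-s) - 1))^(-k)`. Hence length `2 L`: index
`Bool × Fin L`, `A_(0,j)(k) = binom(k,j)` if `k >= 0`, else 0, `A_(1,j)(k) = binom(-k,j)` if `k < 0`,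
else 0. (`k.toNat`, `Nat.choose`.) -/
def ZksStmt : Prop :=
  ∀ (K : Type) [Field K] (v : AbsoluteValue K ℝ) (θ : ℝ) (L : ℕ) (ζ : K), IsNonarchimedean v →
    0 < θ → θ < 1 → v (ζ - 1) ≤ θ → Short v (2 * L) (θ ^ L) (fun k s => ζ ^ (k * s))

/-- **Row MNG** (determinant: the rows of a group are modulo `ε` in the span of `c` functions; real
weights `ω` of the rows and `χ` of the columns). PROOF (compare `Helper49_THS/MNN.lean`). Leibniz for
the rows: row `i` is `sum_s A i s • B (γ i) s + E_i`. Expand multilinearly: a term is given by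
`φ : ι → Option (Fin c)`; if two rows of the same group use the same `s`, they are proportional and
the determinant of the term is 0; otherwise at most `c * card G` rows have `φ i = some s`, so at least
`card ι - c * card G` rows are rows of `E`, and every product in the Leibniz formula is
`<= (∏ ω) (∏ χ) ε^(number of E rows)`. Ultrametric inequality. Or as in MNN: the block matrix
`fromBlocks 1 B (-A) E` with the index set `(G × Fin c) ⊕ ι`, where the entry of `A` at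
`(i, (g, s))` is `A i s` if `γ i = g` and 0 otherwise; its determinant is `det M`
(`Matrix.det_fromBlocks_one₁₁`); rows: weight 1 for `(g, s)`, `ω i` for `i`; columns: weight 1 for
`(g, s)`, `χ j` for `j`; every permutation matches at least `card ι - c card G` columns on the right
with rows on the right. -/
def MngStmt : Prop :=
  ∀ (K : Type) [Field K] (v : AbsoluteValue K ℝ) (ι G : Type) [Fintype ι] [DecidableEq ι]
    [Fintype G] (c : ℕ) (γ : ι → G) (M : Matrix ι ι K) (A : ι → Fin c → K)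
    (B : G → Fin c → ι → K) (ω χ : ι → ℝ) (ε : ℝ), IsNonarchimedean v → 0 ≤ ε → ε ≤ 1 →
    (∀ i, 0 ≤ ω i) → (∀ j, 0 ≤ χ j) → (∀ i s, v (A i s) ≤ ω i) → (∀ g s j, v (B g s j) ≤ χ j) →
    (∀ i j, v (M i j - ∑ s, A i s * B (γ i) s j) ≤ ε * (ω i * χ j)) →
    v M.det ≤ ε ^ (Fintype.card ι - c * Fintype.card G) * ((∏ i, ω i) * ∏ j, χ j)

/-- **Row DBW** (trivial determinant bounds with weights). PROOF. Leibniz formula
(`Matrix.det_apply'`), signs have `v = 1`, every product is `<= (∏ ω) (∏ χ)` (reindex `∏ χ` by the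
permutation); triangle inequality with `r!` terms, resp. ultrametric inequality
(`Helper60_THS/DBD.lean`). -/
def DbwStmt : Prop :=
  ∀ (K : Type) [Field K] (v : AbsoluteValue K ℝ) (ι : Type) [Fintype ι] [DecidableEq ι]
    (M : Matrix ι ι K) (ω χ : ι → ℝ), (∀ i, 0 ≤ ω i) → (∀ j, 0 ≤ χ j) →
    (∀ i j, v (M i j) ≤ ω i * χ j) →
    v M.det ≤ (Fintype.card ι).factorial * ((∏ i, ω i) * ∏ j, χ j) ∧
      (IsNonarchimedean v → v M.det ≤ (∏ i, ω i) * ∏ j, χ j)

/-- **Row PFG** (product formula with a weight `w` and an exponent `n`; uses `THS.HfsStatement`,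
proved). PROOF (compare `Helper10_THS/DPF.lean`). The product formula for `D` and for `w`:
`1 = prod_v v(D)^n / v(w)`. Multiply the hypotheses: the infinite places give
`(C^n)^([K : Q]) prod nv^(r n mult)`, the finite places outside `S` the second hypothesis, in `S` the
third one; `prod_(v fin) v 2 = 2^(-[K : Q])`. So `(prod_S p v)^n <= ((C 2^m)^[K : Q] H(Y)^r)^n`; take
the root (`n >= 1`, both sides `>= 0`). All factors are 1 outside a finite set (HFS for `Y`, `D`, `w`,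
2). -/
def PfgStmt : Prop :=
  ∀ (K : Type) [Field K] [NumberField K] (ι : Type) [Finite ι] (Y : ι → K) (D w : K)
    (m r n : ℕ) (C : ℝ) (S : Finset (NumberField.FinitePlace K))
    (p : NumberField.FinitePlace K → ℝ), Y ≠ 0 → D ≠ 0 → w ≠ 0 → 0 ≤ C → 0 < n → (∀ v, 0 ≤ p v) →
    (∀ v : NumberField.InfinitePlace K, v.val D ^ n ≤ v.val w * (C * nv v.val Y ^ r) ^ n) →
    (∀ v : NumberField.FinitePlace K,
      (v.val 2 ^ m * v.val D) ^ n ≤ v.val w * (nv v.val Y ^ r) ^ n) →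
    (∀ v ∈ S, (p v * (v.val 2 ^ m * v.val D)) ^ n ≤ v.val w * (nv v.val Y ^ r) ^ n) →
    ∏ v ∈ S, p v ≤ (C * 2 ^ m) ^ Module.finrank ℚ K * Height.mulHeight Y ^ r

end Pool.Agent.SZG
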