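import Pool.Agent.SZG.StmtsD

/-!
# Squad SZG, block R: the translates (step (6) of note 3674), part 1: algebra

`sgn`, `nv` from THS, `Short` from `THS/StmtsL.lean` (first variable `k`, second variable `s`).
`SW` is the weighted form: only the PRODUCT of the two factors is bounded (the weights are real
numbers outside the value group, so the factors cannot be scaled separately).

All rows: file `Pool/Agent/HelperNN_SZG/XXX.lean`, import `Pool.Agent.SZG.StmtsR` (and proved THS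
files), namespace `Pool.Agent.SZG.HNN`, theorem `xxx (hypotheses = rows in uses) : XxxStmt`.
-/

set_option autoImplicit false

namespace Pool.Agent.SZG

open scoped BigOperators
open Pool.Agent.THS (Short nv qv sgn)

/-- `F(k,s) = sum_(j<c) A_j(k) B_j(s)` up to `ε χ(k) ω(s)`, every product `A_j(k) B_j(s)` is at most
`χ(k) ω(s)`. -/
def SW {K : Type} [Field K] (v : AbsoluteValue K ℝ) (c : ℕ) (ε : ℝ) (χ ω : ℤ → ℝ)
    (F : ℤ → ℤ → K) : Prop :=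
  ∃ A B : Fin c → ℤ → K, (∀ j k s, v (A j k) * v (B j s) ≤ χ k * ω s) ∧
    ∀ k s, v (F k s - ∑ j, A j k * B j s) ≤ ε * (χ k * ω s)

/-- **Row SWC** (calculus of weighted short functions; uses nothing).
PROOF. (1) one product: `A_0 = P`, `B_0 = Q`, the error is `0`. (2) finite sums: index set `ι × Fin c`
(`Fintype.equivFin`, `Fintype.card_prod`, as in `short_of_fintype` of `Helper27_THS/SHM.lean`); the
error is a sum of errors (ultrametric inequality: `v (∑ ..) <= max`, for an empty `ι` it is `0`).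
(3) product with a bounded unweighted short function: with `S = ∑ A_j B_j`, `S' = ∑ A'_i B'_i`,
`F F' - S S' = (F - S) F' + S (F' - S')`, `v (F') <= 1`, `v S <= χ ω` (every term), `v (F' - S') <= ε`;
`S S'` is the sum over `Fin c × Fin c'` of `(A_j A'_i) (B_j B'_i)`, and
`v (A_j A'_i) v (B_j B'_i) <= χ ω`, since `v (A'_i), v (B'_i) <= 1`. (4) clear: the same `A`, `B`.
(`0 <= χ`, `0 <= ω` are hypotheses.) -/
def SwcStmt : Prop :=
  ∀ (K : Type) [Field K] (v : AbsoluteValue K ℝ) (χ ω : ℤ → ℝ), IsNonarchimedean v →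
    (∀ k, 0 ≤ χ k) → (∀ s, 0 ≤ ω s) →
    (∀ (P Q : ℤ → K) (ε : ℝ), 0 ≤ ε → (∀ k s, v (P k) * v (Q s) ≤ χ k * ω s) →
      SW v 1 ε χ ω (fun k s => P k * Q s)) ∧
    (∀ (n c : ℕ) (ε : ℝ) (ι : Type) [Fintype ι] (F : ι → ℤ → ℤ → K), Fintype.card ι = n → 0 ≤ ε →
      (∀ i, SW v c ε χ ω (F i)) → SW v (n * c) ε χ ω (fun k s => ∑ i, F i k s)) ∧
    (∀ (c c' : ℕ) (ε : ℝ) (F F' : ℤ → ℤ → K), 0 ≤ ε → (∀ k s, v (F' k s) ≤ 1) →
      SW v c ε χ ω F → Short v c' ε F' → SW v (c * c') ε χ ω (fun k s => F k s * F' k s)) ∧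
    (∀ (c : ℕ) (ε : ℝ) (χ' ω' : ℤ → ℝ) (F : ℤ → ℤ → K), (∀ k, χ k = χ' k) → (∀ s, ω s = ω' s) →
      SW v c ε χ ω F → SW v c ε χ' ω' F)

/-- **Row RAL** (the algebra of step (6); uses SWC, INV, ZKS; and `THS.H27.shm`).
Application: `U a k s = T_a(l k e_z + 2 b1 + 2 s δ)`, `V a k s = T_a(l k e_z - 2 s δ)`,
`X k = x_(l k e_z + b1)`, `Y s = x_(b1 + 2 s δ)`, `s0` the constant of RQ, `o k` the maximal
coordinate of `T(l k e_z)`, `τ k = T_(o k)(l k e_z)`, `κ = A^4`, `ρ = R^l`, `η = e(2 l δ, e_z)`,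
`ξ = e(2 l b1, e_z)`, `f k s = 1 + μ(l k, -s)`.
PROOF. (i) Fix `a`. For `o' ∈ (Z/2)^g` and `b ∈ (Z/2)^g` put
`P(k) = if o k = o' then (2^g)⁻¹ sgn b o' s0 X_(a+o',b)(k) ξ^(-k) (τ k)⁻¹ else 0`,
`Q(s) = Y_(a+o',b)(s) κ^(-s^2)`. By (h1) for the pair `(a, o k)` and (h2), dividing by
`V (o k) k s ≠ 0`:
`ξ^(-k) η^(-k s) U a k s = (∑_(o',b) P(k) Q(s)) * (ρ/η)^(k s) * (f k s)⁻¹`
(`V (o k) k s = κ^(s^2) ρ^(-k s) τ(k) f(k,s)`; `zpow` rules, all bases are nonzero).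
(ii) `v (P k) v (Q s) <= χ k ω s`: `v 2 = 1`, `v (sgn) = 1` (`sgn` is `1` or `-1`) and (h3); for `o k ≠ o'` the left
side is `0`. SWC (1), (2): the sum is `SW` of length `4^g` (card of the pairs `(o', b)`) for every
`ε >= 0`. (iii) ZKS: `(ρ/η)^(k s)` is Short of length `2 L` modulo `θ^L`, and `v = 1`. (iv) INV:
`(f k s)⁻¹` is Short of length `c1(c, L)` modulo `θ^L`, and `v = 1` since `v (f - 1) <= θ < 1`.
(v) SWC (3) twice with `ε = θ^L`: length `4^g * (2 L) * c1`. -/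
def RalStmt : Prop :=
  ∀ c g L : ℕ, ∃ c' : ℕ, ∀ (K : Type) [Field K] (v : AbsoluteValue K ℝ) (θ : ℝ)
    (o : ℤ → (Fin g → ZMod 2)) (U V : (Fin g → ZMod 2) → ℤ → ℤ → K)
    (X Y : ℤ → (Fin g → ZMod 2) × (Fin g → ZMod 2) → K) (s0 κ ρ η ξ : K) (τ : ℤ → K)
    (f : ℤ → ℤ → K) (χ ω : ℤ → ℝ), IsNonarchimedean v → v 2 = 1 → 0 < θ → θ < 1 →
    κ ≠ 0 → ρ ≠ 0 → η ≠ 0 → ξ ≠ 0 → (∀ k, τ k ≠ 0) → (∀ k, 0 ≤ χ k) → (∀ s, 0 ≤ ω s) →
    (∀ a d k s, (2 : K) ^ g * (U a k s * V d k s) =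
      ∑ b : Fin g → ZMod 2, (sgn b d : K) * (s0 * X k (a + d, b) * Y s (a + d, b))) →
    (∀ k s, V (o k) k s = κ ^ (s ^ 2) * ρ ^ (-(k * s)) * τ k * f k s) →
    (∀ ab k s, v (s0 * X k ab * ξ ^ (-k) * (τ k)⁻¹) * v (Y s ab * κ ^ (-(s ^ 2))) ≤ χ k * ω s) →
    v (ρ / η - 1) ≤ θ → (∀ k s, v (f k s - 1) ≤ θ) → Short v c (θ ^ L) f →
    ∀ a, SW v c' (θ ^ L) χ ω (fun k s => ξ ^ (-k) * η ^ (-(k * s)) * U a k s)

end Pool.Agent.SZG
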