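import Pool.Agent.SZG.StmtsE

/-!
SZG, block F: scalars, periods, the auxiliary theta function. Complete proofs in the docstrings.
-/

namespace Pool.Agent.SZG

open scoped BigOperators
open Pool.Agent.THS

/-- The functions `F_(p,q,a)(w) = exp(16 pi i q.w) Theta_a(2 l w + 2 (p + tau q)/l)`. -/
noncomputable def FF {g : ℕ} (τ : Matrix (Fin g) (Fin g) ℂ) (l : ℕ) (p q : Fin g → ℤ) (a : Ch g)
    (w : Fin g → ℂ) : ℂ :=
  Complex.exp (16 * Real.pi * Complex.I * ∑ i, (q i : ℂ) * w i)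
    * Thc τ a (fun r => 2 * (l : ℂ) * w r + 2 * ((p r : ℂ) + ∑ j, τ r j * (q j : ℂ)) / (l : ℂ))

/-- **Row PLG** (parallelogram law in a group with torsion). PROOF. (0,i): `h i + h (-i) = 2 h 0 + 2 h i`.
(A) the law for (i+j, k); (B) for (i, k-j): `h (i+k-j) + h (i-k+j) = 2 h i + 2 h (k-j)`; (C) for
(i+k, j). (A) - (B) + (C): `2 h (i+j+k) = 2 h (i+j) + 2 h (i+k) + 2 h j + 2 h k - 2 h i - 2 h (k-j)`;
and the law for (k, j), doubled, gives `2 h (k-j) = 4 h k + 4 h j - 2 h (k+j)`. -/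
def PlgStmt : Prop :=
  ∀ (I G : Type) [AddCommGroup I] [AddCommGroup G] (h : I → G), h 0 = 0 →
    (∀ i j, h (i + j) + h (i - j) = 2 • h i + 2 • h j) →
    (∀ i, h (-i) = h i) ∧
    ∀ i j k, 2 • h (i + j + k) + 2 • h i + 2 • h j + 2 • h k
      = 2 • h (i + j) + 2 • h (i + k) + 2 • h (j + k)

/-- **Row QFF** (lifting of quadratic functions). PROOF. `pol(i,j) = f(i+j) - f i - f j` is symmetric and
bilinear, and `pol(i,i) = 2 f i` (j = -i: pol(i,-i) = - 2 f i). With a basis b_r of I: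
`f(sum i_r b_r) = sum_r i_r^2 f(b_r) + sum over unordered pairs r <> t of i_r i_t pol(b_r,b_t)`
(`QuadraticMap.map_sum`, or induction; f is a `QuadraticMap ℤ I G`). Let σ : G -> ℂ be a section of π
and put `β_rt = σ(pol(b_r,b_t))/2` for r <> t (symmetric), `β_rr = σ(f(b_r))`, and
`B i j = sum_(r,t) β_rt i_r j_t`. Then `B i i = sum_r i_r^2 β_rr + sum_(pairs) i_r i_t (2 β_rt)` and
π is additive (integer coefficients). -/
def QffStmt : Prop :=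
  ∀ (I G : Type) [AddCommGroup I] [AddCommGroup G] [Module.Free ℤ I] [Module.Finite ℤ I]
    (π : ℂ →+ G) (f : I → G), Function.Surjective π → f 0 = 0 → (∀ i, f (-i) = f i) →
    (∀ i j k, f (i + j + k) + f i + f j + f k = f (i + j) + f (i + k) + f (j + k)) →
    ∃ B : I → I → ℂ, (∀ i j, B i j = B j i) ∧ (∀ i j k, B (i + j) k = B i k + B j k) ∧
      ∀ i, π (B i i) = f i

/-- **Row SCG** (scalars; uses RGI, PLG, QFF). PROOF. F = image of φ, G = ℂˣ modulo the nonzero elements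
of F (written additively: `Additive (ℂˣ ⧸ (Units.map φ).range)`), π(t) = class of exp t (surjective).
(R0) `μ_i μ_j θ_(i+j)(e') θ_(i-j)(d) ∈ F`: RGI for θ (a = e' + d) and the hypothesis:
`2^g θ_(i+j)(e') θ_(i-j)(d) = sum_b sgn V_i(a,b) V_j(a,b)`, times μ_i μ_j. With nonzero entries
`θ_(2a)(e')`, `θ_(2b)(d)`, `θ_0(c0)`, R0 for (a+b, a-b) (sum a+a, difference b+b), (a,a), (b,b),
(0,0): `μ_(a+b) μ_(a-b) μ_0^2/(μ_a^2 μ_b^2) ∈ F*` (all numbers are nonzero). So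
h(i) = class of μ_i/μ_0 satisfies the parallelogram law; PLG; QFF for f = 2 h (f(i) = class of
(μ_i/μ_0)^2): B with `exp (B i i) = (μ_i/μ_0)^2 φ(y_i)`, y_i in K*. l0 = μ_0^2 θ_0(c0). Then
`l0 exp(B i i) θ_(i+i)(c) = φ(y_i) μ_i^2 θ_(i+i)(c) θ_0(c0) ∈ F` (R0 for (i,i)): T. Next, with
`B(i+j,i+j) + B(i-j,i-j) = 2 B i i + 2 B j j`, `φ(RG T a b i j) = l0^2 exp(2 B i i + 2 B j j)
RG θ a b (i+i) (j+j) = σ_i σ_j φ(x_(i+i) x_(j+j) (a,b))`, `σ_i = l0 exp(2 B i i)/μ_(i+i) <> 0`. For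
every i, j some RG T a b i j <> 0 (RGI, T (i+j), T (i-j) <> 0), so σ_i σ_j ∈ F*; put
`φ(s) = σ_0^2`, `φ(κ_i) = σ_i σ_0/σ_0^2`; `σ_i σ_j = φ(s κ_i κ_j)`. -/
def ScgStmt : Prop :=
  ∀ (g : ℕ) (K I : Type) [Field K] [AddCommGroup I] [Module.Free ℤ I] [Module.Finite ℤ I]
    (φ : K →+* ℂ) (θ : I → Ch g → ℂ) (V : I → Ch g × Ch g → ℂ) (x : I → Ch g × Ch g → K)
    (μ : I → ℂ), (∀ k, ∃ c, θ k c ≠ 0) → (∀ k c, θ (-k) c = θ k c) →
    (∀ a b i j, V i (a, b) * V j (a, b) = RG θ a b i j) →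
    (∀ k ab, φ (x k ab) = μ k * V k ab) → (∀ k, μ k ≠ 0) →
    ∃ (l0 : ℂ) (B : I → I → ℂ) (T : I → Ch g → K) (s : K) (κ : I → K), l0 ≠ 0 ∧ s ≠ 0 ∧
      (∀ i, κ i ≠ 0) ∧ (∀ i j, B i j = B j i) ∧ (∀ i j k, B (i + j) k = B i k + B j k) ∧
      (∀ i c, φ (T i c) = l0 * Complex.exp (B i i) * θ (i + i) c) ∧
      ∀ a b i j, RG T a b i j = s * ((κ i * x (i + i) (a, b)) * (κ j * x (j + j) (a, b)))

/-- **Row THG** (OUTPUT 1: theta functions give the data; uses THS.Tou, SCG). PROOF. I = Idx g,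
`θ i c = Thc τ c (gam i)`, `V i (a,b) = Vab τ a b (gam i)`, gam is additive; μ_i from the hypothesis
(nonzero, as x i <> 0). TOU: Riemann's relation, parity, no common zero. SCG gives l0, B, T, s, κ;
x' i = κ_i x (i+i). L0 = the group of all m with 2 gam m in the lattice; contains (0, l P, l Q)
(2 gam = 2 (P + tau Q)) and E•i for E = N l (N z in the lattice). For m in L0, 2 gam m = P + tau Q
(choose P, Q): by the periods in TOU at the point 2 gam i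
`Thc τ c (2 gam i + 2 gam m) = exp(-2 pi i Q.tau Q - 8 pi i Q.gam i) Thc τ c (2 gam i)`, so
`φ(T (i+m) c) = c' e'(i) φ(T i c)`, `c' = exp(B m m - 2 pi i Q.tau Q)`,
`e'(i) = exp(2 B m i - 8 pi i Q.gam i)`. c' (i = 0) and e'(i) are in the image of φ (quotients at
nonzero coordinates): c m, e m i. `eadd`: the exponent is additive in i. Last claim: for
b = (0,p,q), m = l•b = (0, l p, l q) one may take P = 2p, Q = 2q (e m i is determined by T), so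
`φ(e (l•b) Z) = exp(2 l B b Z - 16 pi i q.z)` (gam Z = z); and (l k)•Z + b = (l k, p, q),
`B(i,i) = l^2 k^2 B Z Z + 2 l k B Z b + B b b`: `ν k = l0 exp(l^2 k^2 B Z Z)`,
`η p q = exp(B b b)`. -/
def ThgStmt : Prop :=
  ∀ (g : ℕ) (K : Type) [Field K] (φ : K →+* ℂ) (τ : Matrix (Fin g) (Fin g) ℂ), Siegel τ →
    ∀ (z : Fin g → ℂ) (l : ℕ), 0 < l → (∃ N : ℕ, 0 < N ∧ InLat τ (fun i => (N : ℂ) * z i)) →
    ∀ x : Idx g → Ch g × Ch g → K, (∀ i, x i ≠ 0) →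
    (∀ i, ∃ μ : ℂ, ∀ ab, φ (x i ab) = μ * Vab τ ab.1 ab.2 (gam τ z l i)) →
    ∃ (E : ℕ) (L0 : AddSubgroup (Idx g)) (c : Idx g → K) (e : Idx g → Idx g → K) (s : K)
      (T : Idx g → Ch g → K) (x' : Idx g → Ch g × Ch g → K), QS K (Idx g) g E L0 c e s T x' ∧
      (∀ P Q : Fin g → ℤ, ((0, fun i => (l : ℤ) * P i, fun i => (l : ℤ) * Q i) : Idx g) ∈ L0) ∧
      (∀ i, ∃ κ : K, κ ≠ 0 ∧ ∀ ab, x' i ab = κ * x (i + i) ab) ∧
      ∃ (ν : ℕ → ℂ) (η : (Fin g → ℤ) → (Fin g → ℤ) → ℂ), (∀ k, ν k ≠ 0) ∧ (∀ p q, η p q ≠ 0) ∧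
        ∀ (p q : Fin g → ℤ) (k : ℕ) (a : Ch g), φ (Mp l e T (Zz g) ((0, p, q) : Idx g) k a)
          = ν k * η p q * FF τ l p q a (fun i => (k : ℂ) * z i)

/-- **Row FQP** (quasi-periodicity; uses THS.Tou). PROOF. `2 l (w + P + tau Q)` is the argument plus
`(2 l P) + tau (2 l Q)`: the period formula of TOU gives
`exp(-8 pi i l^2 Q.tau Q - 8 pi i l Q.(2 l w + 2 (p + tau q)/l))
 = exp(-8 pi i l^2 Q.tau Q - 16 pi i l^2 Q.w - 16 pi i Q.p - 16 pi i Q.tau q)`; the factor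
exp(16 pi i q.(w + P + tau Q)) contributes exp(16 pi i q.P + 16 pi i q.tau Q). q.P and Q.p are
integers, and q.tau Q = Q.tau q (tau symmetric). -/
def FqpStmt : Prop :=
  ∀ (g : ℕ) (τ : Matrix (Fin g) (Fin g) ℂ), Siegel τ → ∀ (l : ℕ) (p q : Fin g → ℤ) (a : Ch g)
    (w : Fin g → ℂ) (P Q : Fin g → ℤ), 0 < l →
    FF τ l p q a (fun i => w i + ((P i : ℂ) + ∑ j, τ i j * (Q j : ℂ)))
      = Complex.exp (-(8 * Real.pi * Complex.I * (l : ℂ) ^ 2
            * ∑ i, ∑ j, (Q i : ℂ) * τ i j * (Q j : ℂ))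
          - 16 * Real.pi * Complex.I * (l : ℂ) ^ 2 * ∑ i, (Q i : ℂ) * w i) * FF τ l p q a w

/-- **Row TDF** (the series is holomorphic in z; uses THS.Tbd). PROOF.
`hasFDerivAt_tsum_of_isPreconnected` (or the version for balls) on the ball of radius R of
`Fin g -> ℂ` (sup norm): the derivative of `tht τ s z n` in z is `tht τ s z n` times the linear form
`2 pi i sum_i (n_i + s_i) dz_i`, of norm `<= 2 pi sum_i |n_i + s_i|`. Bound of
`|n_i + s_i| * ‖tht τ s z n‖`: `|n_i + s_i| <= exp |n_i + s_i| <= exp(n_i + s_i) + exp(-(n_i + s_i))`,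
and `exp(±(n_i + s_i)) tht τ s z n = tht τ s (z ∓ (i/(2 pi)) e_i) n` in absolute value, so TBD for
the radius `max R (sup |s|) + 1` gives a summable bound `2 g * 2 pi * 2 * u n`. Summable at one
point: TBD. -/
def TdfStmt : Prop :=
  ∀ (g : ℕ) (τ : Matrix (Fin g) (Fin g) ℂ), Siegel τ → ∀ s : Fin g → ℝ,
    Differentiable ℂ (fun z : Fin g → ℂ => ths τ s z)

/-- **Row FDF** (uses TDF). PROOF. `2 • τ` is Siegel. Composition of TDF with an affine map, times the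
exponential of a linear function (`Differentiable.cexp`, `Differentiable.comp`, `differentiable_pi`). -/
def FdfStmt : Prop :=
  ∀ (g : ℕ) (τ : Matrix (Fin g) (Fin g) ℂ), Siegel τ → ∀ (l : ℕ) (p q : Fin g → ℤ) (a : Ch g),
    Differentiable ℂ (FF τ l p q a)

/-- **Row FL1** (separation of the pairs (q,a); uses THS.Tpe). PROOF. For an integer vector t, translation
by t/(4l): the argument of Thc changes by t/2, that is the argument of ths (2 tau) by t: TPE (ii)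
gives the factor exp(2 pi i sum (a.val/2) t); with exp(16 pi i q.t/(4l)) together
`χ_(q,a)(t) = exp(2 pi i sum_i (4 q_i + l a_i) t_i/(2 l))`. So for every t in (Fin (2l))^g,
`sum_r κ_r χ_(q,a)(t) F_r(w) = 0`. Multiply by `exp(-2 pi i sum_i (4 q'_i + l a'_i) t_i/(2l))` and sum
over t: the sum of exp(2 pi i m.t/(2l)) over t is (2l)^g if 2l divides all m_i and 0 otherwise
(product of geometric sums). `4 q + l a = 4 q' + l a'` mod 2l, 0 <= q, q' < l odd, a, a' in {0,1}: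
mod l q = q' (4 is invertible), mod 2 (l odd) a = a'. -/
def Fl1Stmt : Prop :=
  ∀ (g : ℕ) (τ : Matrix (Fin g) (Fin g) ℂ), Siegel τ → ∀ (l : ℕ), Odd l → ∀ κ : Row g l → ℂ,
    (∀ w, ∑ r : Row g l, κ r * FF τ l (lft r.2).2.1 (lft r.2).2.2 r.1 w = 0) →
    ∀ (a : Ch g) (q : Fin g → Fin l) (w : Fin g → ℂ),
      ∑ p : Fin g → Fin l,
        κ (a, p, q) * FF τ l (fun i => ((p i).val : ℤ)) (fun i => ((q i).val : ℤ)) a w = 0

/-- **Row FL2** (separation of p; uses THS.Tbd, THS.Grd). PROOF. Divide by the exponential and put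
`w = (y/2 - 2 tau q/l)/(2 l)` for real y: `sum_p κ_p Thc τ a (y/2 + 2 p/l) = 0` for all real vectors y,
and `Thc τ a (y/2 + 2 p/l) = sum_n A_n exp(8 pi i (n + a/2).p/l) exp(2 pi i (n + a/2).y)`,
`A_n = exp(2 pi i (n+a/2).tau (n+a/2)) <> 0`. So with `C_n = A_n sum_p κ_p exp(8 pi i (n+a/2).p/l)`
(absolutely summable by TBD for 2 tau) `sum_n C_n exp(2 pi i n.y) = 0` for all y. If some C_m <> 0,
GRD for `c_n = C_(n+m)/C_m` is a contradiction (multiply by exp(-2 pi i m.y)). So all C_n = 0: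
`sum_p κ'_p exp(8 pi i n.p/l) = 0` for all n in Z^g, `κ'_p = κ_p exp(4 pi i a.p/l)`. Multiply by
exp(-8 pi i n.p'/l) and sum over n in (Fin l)^g: l^g κ'_p' = 0 (4 (p - p') = 0 mod l only for
p = p', l odd). -/
def Fl2Stmt : Prop :=
  ∀ (g : ℕ) (τ : Matrix (Fin g) (Fin g) ℂ), Siegel τ → ∀ (l : ℕ), Odd l →
    ∀ (a : Ch g) (q : Fin g → Fin l) (κ : (Fin g → Fin l) → ℂ),
    (∀ w : Fin g → ℂ, ∑ p : Fin g → Fin l,
      κ p * FF τ l (fun i => ((p i).val : ℤ)) (fun i => ((q i).val : ℤ)) a w = 0) → ∀ p, κ p = 0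

/-- **Row ALT** (OUTPUT 2: relations between the rows give theta functions; uses FQP, FDF, FL1, FL2,
THS.Evb). PROOF. `F_j w = sum_r φ(κ_j r) η(p,q) FF τ l p q a w`, r = (a, (p,q)). F_j(kz): φ of the
relation is ν k F_j(k z) = 0. Independence: let `sum_j u_j F_j = 0`, u_j complex; by FL1 and FL2
`sum_j u_j φ(κ_j r) η = 0` for all r. EVB for κ (X = Row g l) gives r_1, .., r_m with
det (κ_j (r_i)) <> 0, so det (φ (κ_j (r_i))) <> 0 and u = 0. -/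
def AltStmt : Prop :=
  ∀ (g : ℕ) (K : Type) [Field K] (φ : K →+* ℂ) (τ : Matrix (Fin g) (Fin g) ℂ), Siegel τ →
    ∀ (z : Fin g → ℂ) (l : ℕ), Odd l → ∀ (e : Idx g → Idx g → K) (T : Idx g → Ch g → K)
      (ν : ℕ → ℂ) (η : (Fin g → ℤ) → (Fin g → ℤ) → ℂ), (∀ k, ν k ≠ 0) → (∀ p q, η p q ≠ 0) →
      (∀ (p q : Fin g → ℤ) (k : ℕ) (a : Ch g), φ (Mp l e T (Zz g) ((0, p, q) : Idx g) k a)
          = ν k * η p q * FF τ l p q a (fun i => (k : ℂ) * z i)) →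
      ∀ (m : ℕ) (κ : Fin m → Row g l → K), LinearIndependent K κ →
      (∀ (j : Fin m) (k : ℕ), ∑ r : Row g l, κ j r * Mp l e T (Zz g) (lft r.2) k r.1 = 0) →
      ∃ F : Fin m → (Fin g → ℂ) → ℂ, LinearIndependent ℂ F ∧ ∀ j : Fin m, Differentiable ℂ (F j) ∧
        (∀ (w : Fin g → ℂ) (P Q : Fin g → ℤ),
          F j (fun i => w i + ((P i : ℂ) + ∑ j, τ i j * (Q j : ℂ)))
            = Complex.exp (-(8 * Real.pi * Complex.I * (l : ℂ) ^ 2
                  * ∑ i, ∑ j, (Q i : ℂ) * τ i j * (Q j : ℂ))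
                - 16 * Real.pi * Complex.I * (l : ℂ) ^ 2 * ∑ i, (Q i : ℂ) * w i) * F j w) ∧
        ∀ k : ℕ, F j (fun i => (k : ℂ) * z i) = 0

/-- **Row NOR** (bounded height; uses THS.Thd, THS.Pig, THS.Prp). PROOF. B from PIG (g, d, H). THD for the
points k z gives α, β, T with TSeq, so NSeq. PIG: i < j <= B with `x j = l x i`; PRP: T (j-i) is a
multiple of T 0; THD, last claim: (j - i) z in the lattice, M = j - i. -/
def NorStmt : Prop :=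
  ∀ (g d : ℕ) (H : ℝ), ∃ B : ℕ, ∀ (K : Type) [Field K] [NumberField K], Module.finrank ℚ K ≤ d →
    ∀ (φ : K →+* ℂ) (τ : Matrix (Fin g) (Fin g) ℂ), Siegel τ →
    ∀ z : Fin g → ℂ, (∃ N : ℕ, 0 < N ∧ InLat τ (fun i => (N : ℂ) * z i)) →
    ∀ x : ℤ → Ch g × Ch g → K, (∀ k, x k ≠ 0) →
    (∀ k, ∃ μ : ℂ, ∀ ab, φ (x k ab) = μ * Vab τ ab.1 ab.2 (fun i => (k : ℂ) * z i)) →
    Height.mulHeight (x 0) ≤ H →
    ∃ M : ℕ, 1 ≤ M ∧ M ≤ B ∧ InLat τ (fun i => (M : ℂ) * z i)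

/-- **The theorem.** -/
def SzgStatement : Prop :=
  ∀ (g : ℕ) (σ : ℝ), ∃ n : ℕ, ∀ l : ℕ, l.Prime → Odd l → ∀ d : ℕ, ∃ B : ℕ,
    ∀ (K : Type) [Field K] [NumberField K], Module.finrank ℚ K ≤ d →
    ∀ (φ : K →+* ℂ) (τ : Matrix (Fin g) (Fin g) ℂ), Siegel τ →
    ∀ z : Fin g → ℂ, (∃ N : ℕ, 0 < N ∧ InLat τ (fun i => (N : ℂ) * z i)) →
    ∀ x : Idx g → Ch g × Ch g → K, (∀ i, x i ≠ 0) →
    (∀ i, ∃ μ : ℂ, ∀ ab, φ (x i ab) = μ * Vab τ ab.1 ab.2 (gam τ z l i)) →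
    ∀ (S : Finset (NumberField.FinitePlace K)) (ev : NumberField.FinitePlace K → ℕ),
    (∀ v ∈ S, v.val 2 = 1 ∧ 1 ≤ ev v ∧ (∀ k : ℤ, CM v.val (x (k, 0, 0)) (x 0)) ∧
      ∃ p q : Fin g → ℤ, (∃ i, ¬ (l : ℤ) ∣ p i ∨ ¬ (l : ℤ) ∣ q i) ∧
        ∀ u : ℤ, TC v.val ((qv v ^ ev v)⁻¹) (x (u • ((0, p, q) : Idx g))) (x 0)) →
    Real.log (Height.mulHeight (x 0)) ≤ σ * ∑ v ∈ S, (ev v : ℝ) * lN v →
    (∃ M : ℕ, 1 ≤ M ∧ M ≤ B ∧ InLat τ (fun i => (M : ℂ) * z i)) ∨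
    ∃ F : Fin (2 ^ g * l ^ (2 * g) - n * l ^ (2 * g - 1)) → (Fin g → ℂ) → ℂ,
      LinearIndependent ℂ F ∧ ∀ j, Differentiable ℂ (F j) ∧
      (∀ (w : Fin g → ℂ) (P Q : Fin g → ℤ),
        F j (fun i => w i + ((P i : ℂ) + ∑ j, τ i j * (Q j : ℂ)))
          = Complex.exp (-(8 * Real.pi * Complex.I * (l : ℂ) ^ 2
                * ∑ i, ∑ j, (Q i : ℂ) * τ i j * (Q j : ℂ))
              - 16 * Real.pi * Complex.I * (l : ℂ) ^ 2 * ∑ i, (Q i : ℂ) * w i) * F j w) ∧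
      ∀ k : ℕ, F j (fun i => (k : ℂ) * z i) = 0

/-- **Row ASZ** (assembly; uses DAL, THG, ALT, NOR, HT2, RKD). PROOF. Given g, σ: n from DAL
(g, max σ 0). Given l, d: C = g d log 2, S0 from DAL, B from NOR (g, d, exp (max σ 0 * S0)). Let K, ..
be given. THG (l > 0, prime) gives the data; x' 0 = κ x (0 + 0) = κ x 0, so H(x' 0) = H(x 0)
(`Height.mulHeight_smul_eq_mulHeight`), and CM, TC for x follow for x' (scalar multiples;
`n • Zz g + n • Zz g = (2n, 0, 0)`, `n•(0,p,q) + n•(0,p,q) = (2n)•(0,p,q)`; the absolute values of the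
scalars cancel). HT2: log H(T 0) <= log H(x 0) + (g d/2) log 2. RKD for
`f r k = Mp l e T (Zz g) (lft r.2) k r.1` (ι = Row g l, card = 2^g (l^g l^g), X = ℕ,
R = n l^(2g-1)). Second case: det (IM l e T r k) <> 0; DAL: sum <= S0; so
log H(x 0) <= max σ 0 * S0 (the sum is >= 0: lN >= 0) and NOR for `fun k => x (k,0,0)`
(gam (k,0,0) = k z) gives the first alternative. First case: ALT gives the second alternative (m =
card (Row g l) - R, cast `Fin` along the equality 2^g (l^g l^g) = 2^g l^(2g)). -/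
def AszStmt : Prop := SzgStatement

end Pool.Agent.SZG
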