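import Pool.Agent.SZG.StmtsW

/-!
SZG, block M: one nonarchimedean absolute value `v` with `v 2 = 1`; canonical size of `T` at the
points `k Z + s δ`, normal form modulo `θ`. Complete proofs in the docstrings. `|y|` is `nv v y`.
HYPOTHESES (a): `x (n • Z)` and `x 0` have a common maximal coordinate; (b): `x (n • δ)` and `x 0` are
congruent modulo `θ`.
-/

namespace Pool.Agent.SZG

open scoped BigOperators
open Pool.Agent.THS

/-- All hypotheses at one place, with the canonical size of `T` on `Z Z + Z δ`. -/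
structure LocD (K I : Type) [Field K] [AddCommGroup I] (v : AbsoluteValue K ℝ) (θ : ℝ) (g E : ℕ)
    (L0 : AddSubgroup I) (c : I → K) (e : I → I → K) (s : K) (T : I → Ch g → K)
    (x : I → Ch g × Ch g → K) (W : I → ℝ) (X : I → I → ℝ) (Z δ : I) : Prop where
  na : IsNonarchimedean v
  v2 : v 2 = 1
  th0 : 0 < θ
  th1 : θ < 1
  qs : QS K I g E L0 c e s T x
  wx : WX v L0 c e W X
  hb : ∀ n : ℤ, TC v θ (x (n • δ)) (x 0)
  can : ∀ n u : ℤ, nv v (T (n • Z + u • δ)) = nv v (T 0) * W (n • Z + u • δ)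

/-- The normalised functions `T_a(k Z + 2 s δ)/(A^(4 s^2) R^(k s) T_(o k)(k Z))`. -/
noncomputable def fn {K I : Type} [Field K] [AddCommGroup I] {g : ℕ} (T : I → Ch g → K) (A R : K)
    (Z δ : I) (o : ℤ → Ch g) (k s : ℤ) (a : Ch g) : K :=
  T (k • Z + (2 * s) • δ) a / (A ^ (4 * s ^ 2) * R ^ (k * s) * T (k • Z) (o k))

/-- **Row TEN** (uses RGI, THS.Foi). PROOF. FOI for `X (a,b) = RG T a b i j = s x_i(a,b) x_j(a,b)`:
the maximum over (a,d) of `|sum_b sgn b (a+d) RG T a b i j|` is `v s * |x_i x_j|`. By RGI this sum is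
`2^g T_(i+j)(a+d) T_(i-j)(d)`, `v (2^g) = 1`, and the maximum over (a,d) of a product of functions of
the independent indices a + d and d is the product of the maxima. -/
def TenStmt : Prop :=
  ∀ (K I : Type) [Field K] [AddCommGroup I] (v : AbsoluteValue K ℝ) (g E : ℕ)
    (L0 : AddSubgroup I) (c : I → K) (e : I → I → K) (s : K) (T : I → Ch g → K)
    (x : I → Ch g × Ch g → K), QS K I g E L0 c e s T x → IsNonarchimedean v → v 2 = 1 →
    ∀ i j : I, nv v (T (i + j)) * nv v (T (i - j)) = v s * nv v (fun t => x i t * x j t)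

/-- **Row XUB** (size of x; uses TEN, WXC, TBG). PROOF. TBG with v 2 = 1 (cube roots):
`|T i| <= |T 0| W i`. TEN for (i,i): `|T (2i)| |T 0| = v s |x_i|^2` (nv of the squares is the square
of nv), and `W (2i) = W i^4`: (1), with equality if `2 • i` is canonical; for i = 0:
`v s |x_0|^2 = |T 0|^2`. (2): multiply (1) for i and j, take the square root. (4): TEN for (i,j),
`|x_i x_j| = |x_i||x_j|` by CM, and (3). -/
def XubStmt : Prop :=
  ∀ (K I : Type) [Field K] [AddCommGroup I] (v : AbsoluteValue K ℝ) (g E : ℕ)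
    (L0 : AddSubgroup I) (c : I → K) (e : I → I → K) (s : K) (T : I → Ch g → K)
    (x : I → Ch g × Ch g → K) (W : I → ℝ) (X : I → I → ℝ), QS K I g E L0 c e s T x →
    WX v L0 c e W X → IsNonarchimedean v → v 2 = 1 → ∀ i j : I,
    nv v (T i) ≤ nv v (T 0) * W i ∧
    v s * nv v (x i) ^ 2 ≤ (nv v (T 0) * W i ^ 2) ^ 2 ∧
    v s * (nv v (x i) * nv v (x j)) ≤ nv v (T 0) ^ 2 * W i ^ 2 * W j ^ 2 ∧
    v s * nv v (x 0) ^ 2 = nv v (T 0) ^ 2 ∧
    (nv v (T (2 • i)) = nv v (T 0) * W (2 • i) → nv v (x i) = nv v (x 0) * W i ^ 2) ∧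
    (nv v (T (2 • i)) = nv v (T 0) * W (2 • i) → nv v (T (2 • j)) = nv v (T 0) * W (2 • j) →
      CM v (x i) (x j) → nv v (T (i + j)) = nv v (T 0) * W (i + j))

/-- **Row CAA** (canonical size on one line; uses TEN, XUB, WXC, ORB, QSA). PROOF. `h i = |T i|/(|T 0| W i)`;
`h <= 1` (XUB), `h (i + E•j) = h i` (`per` and WXC), h > 0. For `i = n•Z`: CM gives
`|x_i x_0| = |x_i||x_0|`, so TEN for (i,0) and (i,i): `|T i|^2 = v s |x_i||x_0|`,
`|T (2i)||T 0| = v s |x_i|^2`, `|T 0|^2 = v s |x_0|^2`; hence `|T i|^4 = |T (2i)||T 0|^3`,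
`h (2•i) = h i ^ 4` (W (2i) = W i^4). If h i < 1, then h(2^n • i) = (h i)^(4^n) is strictly
decreasing in n, against ORB. -/
def CaaStmt : Prop :=
  ∀ (K I : Type) [Field K] [AddCommGroup I] (v : AbsoluteValue K ℝ) (g E : ℕ)
    (L0 : AddSubgroup I) (c : I → K) (e : I → I → K) (s : K) (T : I → Ch g → K)
    (x : I → Ch g × Ch g → K) (W : I → ℝ) (X : I → I → ℝ) (Z : I), QS K I g E L0 c e s T x →
    WX v L0 c e W X → IsNonarchimedean v → v 2 = 1 → (∀ n : ℤ, CM v (x (n • Z)) (x 0)) →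
    ∀ n : ℤ, nv v (T (n • Z)) = nv v (T 0) * W (n • Z)

/-- **Row TCS** (scalar form of a congruence). PROOF. Choose q with `v (y' q) = |y'| > 0` and put
`κ = y q/y' q`. The minor (p,q) divided by `v (y' q)`: `v (y p - κ y' p) <= θ |y|`. For p with
`v (y p) = |y|` (> 0): `v (κ y' p) = |y|` by the ultrametric law (θ < 1), so `v κ |y'| >= |y|`; and
`v κ |y'| = v (y q) <= |y|`. So κ <> 0 and equality. Last claim: `v (κ y' p) = |y| > θ |y|`. -/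
def TcsStmt : Prop :=
  ∀ (K ι : Type) [Field K] [Finite ι] (v : AbsoluteValue K ℝ) (θ : ℝ) (y y' : ι → K),
    IsNonarchimedean v → 0 ≤ θ → θ < 1 → y ≠ 0 → y' ≠ 0 → TC v θ y y' →
    ∃ κ : K, κ ≠ 0 ∧ v κ * nv v y' = nv v y ∧ (∀ p, v (y p - κ * y' p) ≤ θ * nv v y) ∧
      ∀ p, v (y' p) = nv v y' → v (y p) = nv v y

/-- **Row CAB** (canonical size on the plane; uses CAA, TCS, XUB, WXC). PROOF. By TCS every maximal
coordinate of `x 0` is maximal for `x (n•δ)`; so CM for (x (n•δ), x 0), and CAA (for Z and for δ):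
the points n•Z, n•δ are canonical. For i = n•Z, j = u•δ: a common maximal coordinate of x i and x 0
is maximal for x j, so CM (x i) (x j), and `2•i`, `2•j` are canonical: XUB, last part. -/
def CabStmt : Prop :=
  ∀ (K I : Type) [Field K] [AddCommGroup I] (v : AbsoluteValue K ℝ) (θ : ℝ) (g E : ℕ)
    (L0 : AddSubgroup I) (c : I → K) (e : I → I → K) (s : K) (T : I → Ch g → K)
    (x : I → Ch g × Ch g → K) (W : I → ℝ) (X : I → I → ℝ) (Z δ : I), QS K I g E L0 c e s T x →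
    WX v L0 c e W X → IsNonarchimedean v → v 2 = 1 → 0 < θ → θ < 1 →
    (∀ n : ℤ, CM v (x (n • Z)) (x 0)) → (∀ n : ℤ, TC v θ (x (n • δ)) (x 0)) →
    LocD K I v θ g E L0 c e s T x W X Z δ

/-- **Row TCG** (congruence of tensor products; uses RGI, TCS, XUB, WXC). PROOF. i = n•Z + u•δ,
j = m•δ. Let κ be the scalar of TCS for x j, x 0. By XUB (2•i, 2•j, 0 are canonical):
`|x_i| = |x_0| W i^2`, `|x_j| = |x_0| W j^2`, `v s |x_0|^2 = |T 0|^2`, so `v κ = W j^2`. Let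
`M = |T 0|^2 W i^2 W j^2`. `RG T a b i j - κ RG T a b i 0 = s x_i(a,b) (x_j(a,b) - κ x_0(a,b))` has
`v <= v s |x_i| θ |x_j| = θ M`; by RGI (`v (2^g) = 1`):
(1) `v (T_(i+j)(e') T_(i-j)(d) - κ T_i(e') T_i(d)) <= θ M` for all e', d (a = e' + d). For i = 0 and
e' = d = o (`v (T 0 o) = |T 0|`, `T (-j) = T j`): `v (A^2 - κ) <= θ W j^2`, A = T j o/T 0 o; so
`v (A^2) = W j^2`, `v A = W j`; replace κ by A^2 in (1). -/
def TcgStmt : Prop :=
  ∀ (K I : Type) [Field K] [AddCommGroup I] (v : AbsoluteValue K ℝ) (θ : ℝ) (g E : ℕ)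
    (L0 : AddSubgroup I) (c : I → K) (e : I → I → K) (s : K) (T : I → Ch g → K)
    (x : I → Ch g × Ch g → K) (W : I → ℝ) (X : I → I → ℝ) (Z δ : I),
    LocD K I v θ g E L0 c e s T x W X Z δ → ∀ (n u m : ℤ) (o : Ch g), v (T 0 o) = nv v (T 0) →
    v (T (m • δ) o / T 0 o) = W (m • δ) ∧
    ∀ e' d : Ch g, v (T (n • Z + u • δ + m • δ) e' * T (n • Z + u • δ - m • δ) d
        - (T (m • δ) o / T 0 o) ^ 2 * (T (n • Z + u • δ) e' * T (n • Z + u • δ) d))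
      ≤ θ * (nv v (T 0) ^ 2 * W (n • Z + u • δ) ^ 2 * W (m • δ) ^ 2)

/-- **Row TAU** (the vectors `T(kZ + uδ)` and `T(kZ)` are congruent; uses TCG, WXC). PROOF. i = k•Z,
j = u•δ. Choose d with `v (T_(i-j)(d)) = |T (i-j)| = |T 0| W (i-j)`; TCG divided by it, with
`W (i+j) W (i-j) = W i^2 W j^2`: `v (T_(i+j)(e') - λ T_i(e')) <= θ |T 0| W (i+j)` for all e',
`λ = A_j^2 T_i(d)/T_(i-j)(d)`. At a maximal coordinate of T (i+j) this gives
`v λ |T i| >= |T 0| W (i+j)` (ultrametric, θ < 1); at p (`v (T i p) = |T i|`):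
`v (T_(i+j)(p)) = v λ |T i| <= |T 0| W(i+j)`, so equality. τ = T_(i+j)(p)/T_i(p) has
`v (τ - λ) <= θ W(i+j)/W i`; replace λ by τ. -/
def TauStmt : Prop :=
  ∀ (K I : Type) [Field K] [AddCommGroup I] (v : AbsoluteValue K ℝ) (θ : ℝ) (g E : ℕ)
    (L0 : AddSubgroup I) (c : I → K) (e : I → I → K) (s : K) (T : I → Ch g → K)
    (x : I → Ch g × Ch g → K) (W : I → ℝ) (X : I → I → ℝ) (Z δ : I),
    LocD K I v θ g E L0 c e s T x W X Z δ → ∀ (k u : ℤ) (p : Ch g),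
    v (T (k • Z) p) = nv v (T (k • Z)) →
    v (T (k • Z + u • δ) p) = nv v (T 0) * W (k • Z + u • δ) ∧
    ∀ e' : Ch g, v (T (k • Z + u • δ) e' - T (k • Z + u • δ) p / T (k • Z) p * T (k • Z) e')
      ≤ θ * (nv v (T 0) * W (k • Z + u • δ))

/-- **Row RCG** (relative congruences form a group). PROOF. `v (x - 1) <= θ < 1` gives `v x = 1`
(ultrametric); `x y - 1 = (x-1) y + (y-1)`; `x⁻¹ - 1 = -(x-1)/x`; powers by induction. -/
def RcgStmt : Prop :=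
  ∀ (K : Type) [Field K] (v : AbsoluteValue K ℝ) (θ : ℝ), IsNonarchimedean v → 0 ≤ θ → θ < 1 →
    (∀ x : K, v (x - 1) ≤ θ → v x = 1 ∧ v (x⁻¹ - 1) ≤ θ) ∧
    (∀ x y : K, v (x - 1) ≤ θ → v (y - 1) ≤ θ → v (x * y - 1) ≤ θ) ∧
    (∀ (x : K) (n : ℤ), v (x - 1) ≤ θ → v (x ^ n - 1) ≤ θ)

/-- **Row REC** (approximately geometric sequences; uses RCG). PROOF. `w n = u (n+1)/u n`; the hypothesis
says `w n / w (n-1)` is 1 modulo θ; by induction (both directions, RCG) `w n/w 0` is 1 modulo θ for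
all n, and then `u n/(u 0 (w 0)^n)`: the quotient of the values at n+1 and n is `w n/w 0`. -/
def RecStmt : Prop :=
  ∀ (K : Type) [Field K] (v : AbsoluteValue K ℝ) (θ : ℝ) (u : ℤ → K), IsNonarchimedean v → 0 ≤ θ →
    θ < 1 → (∀ n, u n ≠ 0) → (∀ n, v (u (n + 1) * u (n - 1) / u n ^ 2 - 1) ≤ θ) →
    ∀ n : ℤ, v (u n / (u 0 * (u 1 / u 0) ^ n) - 1) ≤ θ

/-- **Row RH2** (uses RG, TEN, XUB, TAU, WXC, RCG). Notation: `p k` a maximal coordinate of T (k•Z),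
`τ_u(k) = T_(kZ+uδ)(p k)/T_(kZ)(p k)`. PROOF. i = k•Z + δ; write k for k•Z as an index of x, W.
(α) `RG T a b i i - τ_2(2k) RG T a b k k = sum_c sgn (T_(2kZ+2δ)(a+c) - τ_2(2k) T_(2kZ)(a+c)) T_0(c)`
is at most `θ |T 0|^2 W i^4` (TAU for 2k, u = 2; W (2i) = W i^4): `v (s (x_i^2 - τ_2(2k) x_k^2)(a,b))`
at most this, for all (a,b). (β) `RG T a b i (k'•Z) - τ_1(k+k') τ_1(k-k') RG T a b (k•Z) (k'•Z)` is at
most `θ |T 0|^2 W(i+k') W(i-k') = θ |T 0|^2 W i^2 W k'^2` (TAU twice: difference of products).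
By TEN for (k•Z, k'•Z), canonical sizes and XUB, `|x_k x_k'| = |x_k||x_k'|`, so there is (a,b) with
`v (x_k (a,b)) = |x_k|`, `v (x_k' (a,b)) = |x_k'|` (a maximum of products). There, by XUB
(`|x_i| = |x_0| W i^2` etc., `v s |x_0|^2 = |T 0|^2`; `v (τ_1(k+k')τ_1(k-k')) = W i^2/W k^2`, as
W(k+k'+δ) W(k-k'+δ) = W i^2 W k'^2 and W(k+k')W(k-k') = W k^2 W k'^2), (β) says that
`x_i(a,b)/(τ_1(k+k') τ_1(k-k') x_k(a,b))` is 1 modulo θ; (α) says that
`x_i(a,b)^2/(τ_2(2k) x_k(a,b)^2)` is 1 modulo θ (`v τ_2(2k) = W i^4/W k^4`). Square the first and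
divide (RCG). -/
def Rh2Stmt : Prop :=
  ∀ (K I : Type) [Field K] [AddCommGroup I] (v : AbsoluteValue K ℝ) (θ : ℝ) (g E : ℕ)
    (L0 : AddSubgroup I) (c : I → K) (e : I → I → K) (s : K) (T : I → Ch g → K)
    (x : I → Ch g × Ch g → K) (W : I → ℝ) (X : I → I → ℝ) (Z δ : I),
    LocD K I v θ g E L0 c e s T x W X Z δ → ∀ p : ℤ → Ch g,
    (∀ k, v (T (k • Z) (p k)) = nv v (T (k • Z))) → ∀ k k' : ℤ,
    v ((T ((k + k') • Z + δ) (p (k + k')) / T ((k + k') • Z) (p (k + k'))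
        * (T ((k - k') • Z + δ) (p (k - k')) / T ((k - k') • Z) (p (k - k')))) ^ 2
      / (T ((2 * k) • Z + (2 : ℤ) • δ) (p (2 * k)) / T ((2 * k) • Z) (p (2 * k))) - 1) ≤ θ

/-- **Row NFO** (normal form; uses TCG, TAU, RCG, REC, RH2, WXC). PROOF. p k maximal coordinates,
o = p 0, A = T δ o/T 0 o (v A = W δ by TCG, m = 1), `τ_u(k)` as in RH2, `ρ(k) = τ_1(k)/A`,
`R = ρ(1)^2`; `v ρ(1) = W(Z+δ)/(W Z W δ) = X Z δ`. For fixed k: TCG for (n,u,m) = (k,u,1) and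
e' = d = p k, divided by `(T_(kZ+uδ)(p k))^2` (of size `(|T 0| W)^2` by TAU) gives
`τ_(u+1) τ_(u-1)/(A^2 τ_u^2)` = 1 modulo θ; REC for the sequence `τ_u(k) A^(-u^2)` (values 1 and ρ(k) at
u = 0, 1; `(u+1)^2 + (u-1)^2 - 2u^2 = 2`): `τ_u(k)` is `ρ(k)^u A^(u^2)` modulo θ (relatively). RH2 with
k' = 1 and k' = 0: `(ρ(k+1) ρ(k-1))^2/ρ(k)^4` is 1 modulo θ (RCG); REC for `ρ(k)^2` (1 at k = 0):
`ρ(k)^2` is `R^k`. So `τ_(2s)(k)` is `A^(4 s^2) R^(k s)` modulo θ relatively; TAU with u = 2s. -/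
def NfoStmt : Prop :=
  ∀ (K I : Type) [Field K] [AddCommGroup I] (v : AbsoluteValue K ℝ) (θ : ℝ) (g E : ℕ)
    (L0 : AddSubgroup I) (c : I → K) (e : I → I → K) (s : K) (T : I → Ch g → K)
    (x : I → Ch g × Ch g → K) (W : I → ℝ) (X : I → I → ℝ) (Z δ : I),
    LocD K I v θ g E L0 c e s T x W X Z δ →
    ∃ A R : K, A ≠ 0 ∧ R ≠ 0 ∧ v A = W δ ∧ v R = X Z δ ^ 2 ∧ ∀ (k u : ℤ) (a : Ch g),
      v (T (k • Z + (2 * u) • δ) a - A ^ (4 * u ^ 2) * R ^ (k * u) * T (k • Z) a)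
        ≤ θ * (nv v (T 0) * W (k • Z + (2 * u) • δ))

/-- **Row RLE** (R and the period; uses QSA, WXC). PROOF. `(2 l) • δ = l•δ + l•δ` is in L0. The normal
form for k = 0, u = l and a maximal coordinate o of T 0 (`T ((2l)•δ) = c e(.,0) T 0 = c T 0`,
c = c ((2l)•δ), `v c = W`): `c/A^(4 l^2)` is 1 modulo θ. For k = 1, u = l and a maximal coordinate p
of T Z: `T (Z + (2l)•δ) p = c e((2l)•δ, Z) T Z p`, `W (Z + (2l)•δ) = v (c e(.,Z)) W Z`: so
`A^(4 l^2) R^l/(c e((2l)•δ, Z))` is 1 modulo θ (use |T Z| = |T 0| W Z, `can`). Multiply (RCG is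
elementary here). -/
def RleStmt : Prop :=
  ∀ (K I : Type) [Field K] [AddCommGroup I] (v : AbsoluteValue K ℝ) (θ : ℝ) (g E : ℕ)
    (L0 : AddSubgroup I) (c : I → K) (e : I → I → K) (s : K) (T : I → Ch g → K)
    (x : I → Ch g × Ch g → K) (W : I → ℝ) (X : I → I → ℝ) (Z δ : I) (A R : K) (l : ℕ),
    LocD K I v θ g E L0 c e s T x W X Z δ → (l : ℤ) • δ ∈ L0 → A ≠ 0 → R ≠ 0 →
    (∀ (k u : ℤ) (a : Ch g),
      v (T (k • Z + (2 * u) • δ) a - A ^ (4 * u ^ 2) * R ^ (k * u) * T (k • Z) a)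
        ≤ θ * (nv v (T 0) * W (k • Z + (2 * u) • δ))) →
    v (R ^ (l : ℤ) / e ((2 * (l : ℤ)) • δ) Z - 1) ≤ θ

/-- **Row FNB** (first properties of `fn`; uses WXC). PROOF. `v A = W δ`, `v R = X Z δ ^ 2`, so
`v (A^(4u^2) R^(k u)) = W ((2u)•δ) X (k•Z) ((2u)•δ) = W(k•Z + (2u)•δ)/W(k•Z)` (WXC) and
`v (T (k•Z) (o k)) = |T 0| W (k•Z)`: the denominator of fn has size `|T 0| W(k•Z + (2u)•δ)`, which is
|T (k•Z + (2u)•δ)| (`can`): (1). (2) numerator = denominator at u = 0. (3) the normal form divided by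
the denominator (`fn k 0 a = T (k•Z) a/T (k•Z) (o k)`). -/
def FnbStmt : Prop :=
  ∀ (K I : Type) [Field K] [AddCommGroup I] (v : AbsoluteValue K ℝ) (θ : ℝ) (g E : ℕ)
    (L0 : AddSubgroup I) (c : I → K) (e : I → I → K) (s : K) (T : I → Ch g → K)
    (x : I → Ch g × Ch g → K) (W : I → ℝ) (X : I → I → ℝ) (Z δ : I) (A R : K) (o : ℤ → Ch g),
    LocD K I v θ g E L0 c e s T x W X Z δ → v A = W δ → v R = X Z δ ^ 2 →
    (∀ (k u : ℤ) (a : Ch g),
      v (T (k • Z + (2 * u) • δ) a - A ^ (4 * u ^ 2) * R ^ (k * u) * T (k • Z) a)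
        ≤ θ * (nv v (T 0) * W (k • Z + (2 * u) • δ))) →
    (∀ k, v (T (k • Z) (o k)) = nv v (T (k • Z))) → ∀ k u : ℤ,
    v (A ^ (4 * u ^ 2) * R ^ (k * u) * T (k • Z) (o k)) = nv v (T 0) * W (k • Z + (2 * u) • δ) ∧
    (∀ a, v (fn T A R Z δ o k u a) ≤ 1) ∧ fn T A R Z δ o k 0 (o k) = 1 ∧
    ∀ a, v (fn T A R Z δ o k u a - fn T A R Z δ o k 0 a) ≤ θ

/-- **Row FEX** (the exact products; uses RGI, XUB, WXC, FNB, THS.Mxv, THS.Shm). PROOF. i = k•Z,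
j = w•Z + (2u)•δ, w = 0 or 1: i + j = (k+w)•Z + (2u)•δ, i - j = (k-w)•Z + (2(-u))•δ. By RGI (a' = a + d):
`fn (k+w) u a * fn (k-w) (-u) d = 2^(-g) sum_b sgn b a' P_b(k,u)`, b over Ch g (`a' + d = a` in the
exponent: use `RGI` with first index a', `sgn b (a'+d) = sgn b a`),
`P_b(k,u) = s x_(k•Z)(a',b) x_j(a',b)/(A^(8u^2) R^(2 w u) T_(k+w)(o(k+w)) T_(k-w)(o(k-w)))`:
a product of a function of k and a function of u (exponents: 4u^2 + 4u^2, (k+w)u - (k-w)u = 2wu). So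
`P(i,j) P(k,l) = P(i,l) P(k,j)`. `v (P_b) <= 1`: by XUB the numerator is
`<= |T 0|^2 W(i)^2 W(j)^2 = |T 0|^2 W(i+j) W(i-j)`, by FNB the denominator has exactly this size.
MXV: `Short v 1 0 P_b`; SHM (3) for the constants `2^(-g) sgn` (v = 1), SHM (2) over the 2^g
elements b. -/
def FexStmt : Prop :=
  ∀ (K I : Type) [Field K] [AddCommGroup I] (v : AbsoluteValue K ℝ) (θ ρ : ℝ) (g E : ℕ)
    (L0 : AddSubgroup I) (c : I → K) (e : I → I → K) (s : K) (T : I → Ch g → K)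
    (x : I → Ch g × Ch g → K) (W : I → ℝ) (X : I → I → ℝ) (Z δ : I) (A R : K) (o : ℤ → Ch g),
    0 < ρ → ρ < 1 → (∀ y : K, v y < 1 → v y ≤ ρ) →
    LocD K I v θ g E L0 c e s T x W X Z δ → A ≠ 0 → R ≠ 0 → v A = W δ → v R = X Z δ ^ 2 →
    (∀ (k u : ℤ) (a : Ch g),
      v (T (k • Z + (2 * u) • δ) a - A ^ (4 * u ^ 2) * R ^ (k * u) * T (k • Z) a)
        ≤ θ * (nv v (T 0) * W (k • Z + (2 * u) • δ))) →
    (∀ k, v (T (k • Z) (o k)) = nv v (T (k • Z))) → ∀ (w : ℤ) (a d : Ch g),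
    Short v (2 ^ g) 0
      (fun k u => fn T A R Z δ o (k + w) u a * fn T A R Z δ o (k - w) (-u) d)

end Pool.Agent.SZG
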