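import Pool.Agent.SZG.StmtsD2

/-!
# Squad SZG, block D, part 3: the main determinant inequality, abstract form (step (7), (8))

`M` is the matrix `M'` of step (3) (columns: `r` suitable `k`), `P i = e(E b, b)`,
`Q j = e(E l k e_z, l k e_z)`, `n = 2 E`, `ω v i = W_v(b)`, `χ v j = W_v(l k e_z)`, `Y = T(0)`,
`θ v = Nv^(-e_v)`, `L` the precision, `G = ` cosets of `<δ_v>` times `(Z/2)^g`, `N = 2^g l^(2g-1)`.
-/

set_option autoImplicit false

namespace Pool.Agent.SZG

open scoped BigOperators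
open Pool.Agent.THS (Short nv qv)

/-- **Row DMI** (main determinant inequality; proved by helper40 in `Helper40_SZG/DMI.lean`,
no hypotheses). PROOF. DBW at the infinite places and at the finite places outside `S`, MNP at the
places of `S`, PFG for `D = det M`, `w = ∏ P ∏ Q`, the exponent `n`; logarithms. -/
def DmiStmt : Prop :=
  ∀ (K : Type) [Field K] [NumberField K] (ι J : Type) [Fintype ι] [DecidableEq ι] [Nonempty ι]
    [Finite J] (Y : J → K) (M : Matrix ι ι K) (P Q : ι → K) (ω χ : AbsoluteValue K ℝ → ι → ℝ)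
    (n m c N L : ℕ) (C : ℝ) (S : Finset (NumberField.FinitePlace K))
    (θ : NumberField.FinitePlace K → ℝ), Y ≠ 0 → M.det ≠ 0 → 0 < n → 1 ≤ C →
    (∀ i, P i ≠ 0) → (∀ i, Q i ≠ 0) →
    (∀ v i, 0 ≤ ω v i ∧ ω v i ^ n = v (P i)) → (∀ v i, 0 ≤ χ v i ∧ χ v i ^ n = v (Q i)) →
    (∀ (v : NumberField.InfinitePlace K) (i j : ι),
      v.val (M i j) ≤ C * nv v.val Y * (ω v.val i * χ v.val j)) →
    (∀ (v : NumberField.FinitePlace K) (i j : ι),
      v.val 2 ^ m * v.val (M i j) ≤ nv v.val Y * (ω v.val i * χ v.val j)) →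
    (∀ v ∈ S, v.val 2 = 1 ∧ 0 < θ v ∧ θ v ≤ 1 ∧
      ∃ (G : Type) (_ : Fintype G) (γ : ι → G) (A : ι → Fin c → K) (B : G → Fin c → ι → K),
        Fintype.card G ≤ N ∧
        (∀ i s j, v.val (A i s) * v.val (B (γ i) s j) ≤
          nv v.val Y * (ω v.val i * χ v.val j)) ∧
        (∀ i j, v.val (M i j - ∑ s, A i s * B (γ i) s j) ≤
          θ v ^ L * (nv v.val Y * (ω v.val i * χ v.val j)))) →
    2 * (c * N) ≤ Fintype.card ι →
    (L : ℝ) / 2 * ∑ v ∈ S, -Real.log (θ v) ≤ Real.log (Height.mulHeight Y) +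
      Module.finrank ℚ K * (Real.log C + Real.log (Fintype.card ι) + m * Real.log 2)

end Pool.Agent.SZG
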