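import Pool.Agent.THS.StmtsL

/-!
SZG (MP_160b6c_nt, torsion of abelian varieties against the Szpiro ratio, all toric ranks).
Definitions. The index group of the points is `Idx g = Z x Z^g x Z^g`; the index `(k,p,q)` stands for
the point `k z + (p + tau q)/l`. The blocks W, M, R work over an arbitrary additive group `I`.
-/

namespace Pool.Agent.SZG

open scoped BigOperators
open Pool.Agent.THS

/-- Characteristics. -/
abbrev Ch (g : ℕ) := Fin g → ZMod 2

/-- The index group. -/
abbrev Idx (g : ℕ) := ℤ × (Fin g → ℤ) × (Fin g → ℤ)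

/-- The point `k z + (p + tau q)/l` of index `i = (k,p,q)`. -/
noncomputable def gam {g : ℕ} (τ : Matrix (Fin g) (Fin g) ℂ) (z : Fin g → ℂ) (l : ℕ) (i : Idx g) :
    Fin g → ℂ :=
  fun r => (i.1 : ℂ) * z r + ((i.2.1 r : ℂ) + ∑ j, τ r j * (i.2.2 j : ℂ)) / (l : ℂ)

/-- Riemann's quadratic expression
`sum_c (-1)^(b.(a+c)) T_(a+c)(i+j) T_c(i-j)` for a family of vectors indexed by a group. -/
def RG {g : ℕ} {K I : Type} [Field K] [AddCommGroup I] (T : I → Ch g → K) (a b : Ch g) (i j : I) :
    K :=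
  ∑ c : Ch g, (sgn b (a + c) : K) * (T (i + j) (a + c) * T (i - j) c)

/-- The algebraic data: `T i` is the normalised vector of the second order theta functions at the
double of the point `i`, `x i` the (rescaled) vector of all theta functions with half integer
characteristics, `L0` the group of the periods, `c`, `e` the factors of automorphy, `E` a multiple of
all orders, `s` one constant. -/
structure QS (K I : Type) [Field K] [AddCommGroup I] (g E : ℕ) (L0 : AddSubgroup I) (c : I → K)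
    (e : I → I → K) (s : K) (T : I → Ch g → K) (x : I → Ch g × Ch g → K) : Prop where
  hE : 0 < E
  mem : ∀ i : I, E • i ∈ L0
  s0 : s ≠ 0
  T0 : ∀ i, T i ≠ 0
  x0 : ∀ i, x i ≠ 0
  even : ∀ i a, T (-i) a = T i a
  rie : ∀ a b i j, RG T a b i j = s * (x i (a, b) * x j (a, b))
  cne : ∀ m ∈ L0, c m ≠ 0
  ene : ∀ m ∈ L0, ∀ i, e m i ≠ 0
  per : ∀ m ∈ L0, ∀ i a, T (i + m) a = c m * e m i * T i a
  eadd : ∀ m ∈ L0, ∀ i j, e m (i + j) = e m i * e m j

/-- The weight `W_v(i) = |e(E i, i)|_v^(1/(2 E))`. -/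
noncomputable def Wf {K I : Type} [Field K] [AddCommGroup I] (v : AbsoluteValue K ℝ) (E : ℕ)
    (e : I → I → K) (i : I) : ℝ :=
  Real.exp (Real.log (v (e (E • i) i)) / (2 * (E : ℝ)))

/-- The cross weight `X_v(i,j) = |e(E i, j)|_v^(1/E)`. -/
noncomputable def Xf {K I : Type} [Field K] [AddCommGroup I] (v : AbsoluteValue K ℝ) (E : ℕ)
    (e : I → I → K) (i j : I) : ℝ :=
  Real.exp (Real.log (v (e (E • i) j)) / (E : ℝ))

/-- Properties of the weights `W` (exponential of a quadratic form) and `X` (exponential of its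
bilinear form), compatible with the factors of automorphy. -/
structure WX {K I : Type} [Field K] [AddCommGroup I] (v : AbsoluteValue K ℝ) (L0 : AddSubgroup I)
    (c : I → K) (e : I → I → K) (W : I → ℝ) (X : I → I → ℝ) : Prop where
  pos : ∀ i, 0 < W i
  xpos : ∀ i j, 0 < X i j
  neg : ∀ i, W (-i) = W i
  add : ∀ i j, W (i + j) = W i * W j * X i j
  xadd : ∀ i j k, X (i + j) k = X i k * X j k
  xsymm : ∀ i j, X i j = X j i
  ce : ∀ m ∈ L0, v (c m) = W m
  ee : ∀ m ∈ L0, ∀ i, v (e m i) = X m i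

/-- `y` and `y'` have a common coordinate of maximal absolute value. -/
def CM {K ι : Type} [Field K] (v : AbsoluteValue K ℝ) (y y' : ι → K) : Prop :=
  ∃ p, v (y p) = nv v y ∧ v (y' p) = nv v y'

/-- `y` and `y'` are congruent modulo `θ` as projective points: all 2 x 2 minors are at most
`θ |y| |y'|`. -/
def TC {K ι : Type} [Field K] (v : AbsoluteValue K ℝ) (θ : ℝ) (y y' : ι → K) : Prop :=
  ∀ p q, v (y p * y' q - y q * y' p) ≤ θ * (nv v y * nv v y')

/-- The matrix entries `M'(b,k)_a = e(l b, Z)^(-k) T_a(l k Z + b)`. -/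
noncomputable def Mp {K I : Type} [Field K] [AddCommGroup I] {g : ℕ} (l : ℕ) (e : I → I → K)
    (T : I → Ch g → K) (Z b : I) (k : ℕ) (a : Ch g) : K :=
  ((e (l • b) Z)⁻¹) ^ k * T ((l * k) • Z + b) a

end Pool.Agent.SZG
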