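import Pool.Agent.SZG.StmtsS

/-!
SZG, block E: minors of the interpolation matrix, product formula (with the rows MNP, DBW, PFG of
StmtsD, StmtsD2, all proved). Complete proofs in the docstrings.
-/

namespace Pool.Agent.SZG

open scoped BigOperators
open Pool.Agent.THS

/-- The vectors of `{0, .., l-1}^(2g)`. -/
abbrev Bx (g l : ℕ) := (Fin g → Fin l) × (Fin g → Fin l)

/-- The row set of the interpolation matrix: `2^g l^(2g)` elements. -/
abbrev Row (g l : ℕ) := Ch g × Bx g l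

/-- The index `(0, p, q)` of a vector `(p, q)` of `{0, .., l-1}^(2g)`. -/
def lft {g l : ℕ} (b : Bx g l) : Idx g := (0, fun i => ((b.1 i).val : ℤ), fun i => ((b.2 i).val : ℤ))

/-- The index `(1, 0, 0)` of the point `z`. -/
def Zz (g : ℕ) : Idx g := (1, 0, 0)

/-- The interpolation matrix with rows `r` and columns `k`. -/
noncomputable def IM {K : Type} [Field K] {g : ℕ} (l : ℕ) (e : Idx g → Idx g → K)
    (T : Idx g → Ch g → K) {R : ℕ} (r : Fin R → Row g l) (k : Fin R → ℕ) :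
    Matrix (Fin R) (Fin R) K :=
  Matrix.of fun i j => Mp l e T (Zz g) (lft (r i).2) (k j) (r i).1

/-- **Row QCS** (cosets of a subgroup of order l). PROOF. Let V = (ZMod l)^g x (ZMod l)^g, D the class of
(p,q), D <> 0, so D has order l (l prime) and V/<D> has l^(2g)/l = l^(2g-1) elements (Lagrange); fix a
bijection with Fin (l^(2g-1)); r b = class of the reduction of b. For a class choose an element y of
it and put rep = (0, lift of ((l+1)/2) y), so that `2 rep = y` mod l. The reduction of b is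
y + m D = 2 rep + 2 n D mod l, n = ((l+1)/2) m (m an integer). A vector of integers that is 0 mod l in
all coordinates is l times a vector. -/
def QcsStmt : Prop :=
  ∀ (g l : ℕ) (p q : Fin g → ℤ), l.Prime → Odd l → (∃ i, ¬ (l : ℤ) ∣ p i ∨ ¬ (l : ℤ) ∣ q i) →
    ∃ (r : Bx g l → Fin (l ^ (2 * g - 1))) (rep : Fin (l ^ (2 * g - 1)) → Idx g) (n : Bx g l → ℤ),
      (∀ t, (rep t).1 = 0) ∧ ∀ b : Bx g l, ∃ P Q : Fin g → ℤ,
        lft b = (2 : ℤ) • rep (r b) + (2 * n b) • ((0, p, q) : Idx g)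
          + (0, fun i => (l : ℤ) * P i, fun i => (l : ℤ) * Q i)

/-- **Row DSV** (minors at a place of S; uses LOR, QCS, MPP, WXC, MNP). PROOF. n from LOR (g, L).
δ = (0,p,q), Z = Zz g; `l•δ`, `l•rep t` in L0 (first component 0). For b in Bx: b = 2•rep(cl b) +
(2 n(b))•δ + m, m in L0 (QCS, cl = its map r), so by MPP (with b replaced by 2•rep + (2n)•δ; l times
it is in L0) `Mp .. (lft b) k a = y_b Mp .. (2•rep(cl b) + (2 n b)•δ) k a`,
`y_b = c m * e m (2•rep + (2n)•δ)`, and `W (lft b) = v y_b W(2•rep + (2n)•δ)` (WXC). MNP with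
ι = Fin R, G = Fin (l^(2g-1)) × Ch g, c = n, γ i = (cl b, a) for r i = (a, b),
`A i m = y_b Q m (n b)` (Q, P from LOR for b1 = rep (cl b) and a), `B (t, a) m j = P m (k j)`,
ω i = W (lft b), χ j = |T 0| W((l k j)•Z), ε = θ^L. card G = l^(2g-1) 2^g. -/
def DsvStmt : Prop :=
  ∀ g L : ℕ, ∃ n : ℕ, ∀ (K : Type) [Field K] (v : AbsoluteValue K ℝ) (θ ρ : ℝ)
    (E : ℕ) (L0 : AddSubgroup (Idx g)) (c : Idx g → K) (e : Idx g → Idx g → K) (s : K)
    (T : Idx g → Ch g → K) (x : Idx g → Ch g × Ch g → K) (W : Idx g → ℝ) (X : Idx g → Idx g → ℝ)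
    (l : ℕ) (p q : Fin g → ℤ), l.Prime → Odd l → 0 < ρ → ρ < 1 → (∀ y : K, v y < 1 → v y ≤ ρ) →
    LocD K (Idx g) v θ g E L0 c e s T x W X (Zz g) (0, p, q) →
    (∃ i, ¬ (l : ℤ) ∣ p i ∨ ¬ (l : ℤ) ∣ q i) →
    (∀ P Q : Fin g → ℤ, ((0, fun i => (l : ℤ) * P i, fun i => (l : ℤ) * Q i) : Idx g) ∈ L0) →
    ∀ (R : ℕ) (r : Fin R → Row g l) (k : Fin R → ℕ),
      v (IM l e T r k).det ≤ (θ ^ L) ^ (R - n * (2 ^ g * l ^ (2 * g - 1)))
        * ((∏ i : Fin R, W (lft (r i).2)) * ∏ j : Fin R, nv v (T 0) * W ((l * k j) • Zz g))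

/-- **Row DTV** (minors at the other places; uses MPB, DBW). PROOF. `l • lft b` is in L0.
MPB for b = lft (r i).2 and DBW (StmtsD, ι = Fin R) with χ j = |T 0| W((l k j)•Z) and
ω i = 2^g W (lft (r i).2), resp. ω i = W (lft (r i).2)/v 2^g. -/
def DtvStmt : Prop :=
  ∀ (K : Type) [Field K] [CharZero K] (v : AbsoluteValue K ℝ) (g E : ℕ)
    (L0 : AddSubgroup (Idx g)) (c : Idx g → K) (e : Idx g → Idx g → K) (s : K)
    (T : Idx g → Ch g → K) (x : Idx g → Ch g × Ch g → K) (W : Idx g → ℝ) (X : Idx g → Idx g → ℝ)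
    (l : ℕ), QS K (Idx g) g E L0 c e s T x → WX v L0 c e W X →
    (∀ P Q : Fin g → ℤ, ((0, fun i => (l : ℤ) * P i, fun i => (l : ℤ) * Q i) : Idx g) ∈ L0) →
    ∀ (R : ℕ) (r : Fin R → Row g l) (k : Fin R → ℕ),
    (v 2 = 2 → v (IM l e T r k).det ≤ (R.factorial : ℝ) * 2 ^ (g * R)
        * ((∏ i : Fin R, W (lft (r i).2)) * ∏ j : Fin R, nv v (T 0) * W ((l * k j) • Zz g))) ∧
    (IsNonarchimedean v → v 2 ^ (g * R) * v (IM l e T r k).det
      ≤ (∏ i : Fin R, W (lft (r i).2)) * ∏ j : Fin R, nv v (T 0) * W ((l * k j) • Zz g))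

/-- **Row WPR** (product of the explicit weights). PROOF. `Wf v E e i ^ (2 E) = v (e (E•i) i)` (exp of a
multiple, `Real.exp_log`), so the 2E-th power of the product is `v y` with
`y = (prod_i e (E•lft (r i).2) (lft (r i).2)) (prod_j e (E•((l k j)•Z)) ((l k j)•Z))`, a nonzero element
of K which does not depend on v. -/
def WprStmt : Prop :=
  ∀ (K : Type) [Field K] (g E : ℕ)
    (L0 : AddSubgroup (Idx g)) (c : Idx g → K) (e : Idx g → Idx g → K) (s : K)
    (T : Idx g → Ch g → K) (x : Idx g → Ch g × Ch g → K) (l : ℕ),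
    QS K (Idx g) g E L0 c e s T x → ∀ (R : ℕ) (r : Fin R → Row g l) (k : Fin R → ℕ),
    ∃ y : K, y ≠ 0 ∧ ∀ v : AbsoluteValue K ℝ,
      ((∏ i : Fin R, Wf v E e (lft (r i).2)) * ∏ j : Fin R, Wf v E e ((l * k j) • Zz g)) ^ (2 * E)
        = v y

/-- **Row HT2** (height of `T 0`; uses RGI, THS.Hcp). PROOF. As THS row HTZ: RGI for i = j = 0 and `rie`:
`2^g T_0(e') T_0(d) = s sum_b sgn b e' x_0(a,b)^2`, a = e' + d. So `v 2^g |T 0|^2 <= v s 2^g |x 0|^2`
at the infinite places (v 2 = 2: divide by 2^g) and `v 2^g |T 0|^2 <= v s |x 0|^2` at the finite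
places. HCP with X = ![T 0, T 0], Y = ![x 0, x 0], β = s, e = 1, q = g, C = 1. -/
def Ht2Stmt : Prop :=
  ∀ (K I : Type) [Field K] [NumberField K] [AddCommGroup I] (g E : ℕ)
    (L0 : AddSubgroup I) (c : I → K) (e : I → I → K) (s : K) (T : I → Ch g → K)
    (x : I → Ch g × Ch g → K), QS K I g E L0 c e s T x →
    Height.mulHeight (T 0) ^ 2 ≤ 2 ^ (g * Module.finrank ℚ K) * Height.mulHeight (x 0) ^ 2

/-- **Row DAL** (OUTPUT of block E; uses DSV, DTV, WPR, WTX, CAB, PFG, THS.Qvr). PROOF. Let σ >= 0 wlog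
(replace σ by max σ 0: the sum is >= 0). L = natural number >= 2 σ + 2, n' from DSV (g, L),
n = 2 * 2^g * (n' + 1). Let l, d, C be given, R = n l^(2g-1) > 0, so `R - n' 2^g l^(2g-1) >= R/2`. Put
`t v = ev v * L * (R - n' 2^g l^(2g-1))`. Let D = det (IM l e T r k) <> 0, w = y from WPR (the product of the
weights to the power 2E is v y), W = Wf, X = Xf (WTX), N = 2E. Infinite places: DTV to the power N:
`v D^N <= v y (R! 2^(g R) |T 0|^R)^N`. Finite places: `(v 2^(g R) v D)^N <= v y (|T 0|^R)^N`. v in S: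
ρ = (qv v)⁻¹, θ = (qv v ^ ev v)⁻¹ (0 < θ < 1, QVR, ev >= 1), LocD from CAB, DSV:
`v D <= qv^(-t v) (..)`, v 2 = 1. PFG (StmtsD) with m = g R, Y = T 0, r = R, C' = R! 2^(g R) >= 1,
`p v = qv v ^ t v`: taking logarithms `sum_S t v lN v <= d (log C' + g R log 2) + R log H(T 0)` (lN v =
log (qv v), definition). `t v >= ev v L R/2 >= ev v (σ + 1) R`; with `log H(T 0) <= σ sum ev lN + C`:
`R sum_S ev v lN v <= d (..) + R C`. S0 = (d (..) + R max C 0)/R. -/
def DalStmt : Prop :=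
  ∀ (g : ℕ) (σ : ℝ), ∃ n : ℕ, 0 < n ∧ ∀ l : ℕ, l.Prime → Odd l → ∀ (d : ℕ) (C : ℝ), ∃ S0 : ℝ,
    ∀ (K : Type) [Field K] [NumberField K], Module.finrank ℚ K ≤ d →
    ∀ (E : ℕ) (L0 : AddSubgroup (Idx g)) (c : Idx g → K) (e : Idx g → Idx g → K) (s : K)
    (T : Idx g → Ch g → K) (x : Idx g → Ch g × Ch g → K), QS K (Idx g) g E L0 c e s T x →
    (∀ P Q : Fin g → ℤ, ((0, fun i => (l : ℤ) * P i, fun i => (l : ℤ) * Q i) : Idx g) ∈ L0) →
    ∀ (S : Finset (NumberField.FinitePlace K)) (ev : NumberField.FinitePlace K → ℕ),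
    (∀ v ∈ S, v.val 2 = 1 ∧ 1 ≤ ev v ∧ (∀ n : ℤ, CM v.val (x (n • Zz g)) (x 0)) ∧
      ∃ p q : Fin g → ℤ, (∃ i, ¬ (l : ℤ) ∣ p i ∨ ¬ (l : ℤ) ∣ q i) ∧
        ∀ n : ℤ, TC v.val ((qv v ^ ev v)⁻¹) (x (n • ((0, p, q) : Idx g))) (x 0)) →
    Real.log (Height.mulHeight (T 0)) ≤ σ * ∑ v ∈ S, (ev v : ℝ) * lN v + C →
    ∀ (r : Fin (n * l ^ (2 * g - 1)) → Row g l) (k : Fin (n * l ^ (2 * g - 1)) → ℕ),
      (IM l e T r k).det ≠ 0 → ∑ v ∈ S, (ev v : ℝ) * lN v ≤ S0

/-- **Row RKD** (relations; uses THS.Evb). PROOF. The linear map Φ : (ι -> K) -> (X -> K),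
κ |-> sum_i κ_i f_i, has image the span of the f_i. If its dimension is >= R, there are R linearly
independent functions among the f_i (a basis of the span inside the family, `exists_linearIndependent`;
choose R of them), EVB gives points: second alternative with a nonzero minor. Otherwise the kernel of Φ
has dimension >= card ι - R (rank-nullity `LinearMap.finrank_range_add_finrank_ker`); choose
card ι - R linearly independent elements of it. -/
def RkdStmt : Prop :=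
  ∀ (K X ι : Type) [Field K] [Fintype ι] (R : ℕ) (f : ι → X → K),
    (∃ κ : Fin (Fintype.card ι - R) → ι → K, LinearIndependent K κ ∧
      ∀ (j : Fin (Fintype.card ι - R)) (y : X), ∑ i, κ j i * f i y = 0) ∨
    ∃ (r : Fin R → ι) (k : Fin R → X), (Matrix.of fun i j => f (r i) (k j)).det ≠ 0

end Pool.Agent.SZG
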