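import Pool.Agent.SZG.StmtsY

/-!
SZG, block Q: ALL torsion points, ALL toric ranks, true Szpiro ratio. At every place `v` of `S` there
are integers `m_v >= 1` (`m_v z` is in the identity component) and `t_v >= 1` with `m_v <= G (t_v)` for
a given function G, and the hypothesis is `log H(x_0) <= σ sum_S (e_v/t_v) log Nv`.
`t = m`, `G = id`: the theorem of StmtsY. `t = e`, `G t = (8 t)^g`: the true Szpiro ratio
`log H <= σ sum_S log Nv` in every toric rank (the order of the component group, the determinant of the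
monodromy form, is at most the g-th power of its last minimum `8 e_v`).
-/

namespace Pool.Agent.SZG

open scoped BigOperators
open Pool.Agent.THS

/-- **The theorem for all torsion points and all toric ranks.** -/
def Szg3Statement : Prop :=
  ∀ (g : ℕ) (σ : ℝ) (G : ℕ → ℕ), ∃ n : ℕ, ∀ l : ℕ, l.Prime → Odd l →
    ∃ c : ℕ, 1 ≤ c ∧ ∀ d : ℕ, ∃ B : ℕ,
    ∀ (K : Type) [Field K] [NumberField K], Module.finrank ℚ K ≤ d →
    ∀ (φ : K →+* ℂ) (τ : Matrix (Fin g) (Fin g) ℂ), Siegel τ →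
    ∀ z : Fin g → ℂ, (∃ N : ℕ, 0 < N ∧ InLat τ (fun i => (N : ℂ) * z i)) →
    ∀ x : Idx g → Ch g × Ch g → K, (∀ i, x i ≠ 0) →
    (∀ i, ∃ μ : ℂ, ∀ ab, φ (x i ab) = μ * Vab τ ab.1 ab.2 (gam τ z l i)) →
    ∀ (S : Finset (NumberField.FinitePlace K)) (ev t m : NumberField.FinitePlace K → ℕ),
    (∀ v ∈ S, v.val 2 = 1 ∧ 1 ≤ ev v ∧ 1 ≤ t v ∧ 1 ≤ m v ∧ m v ≤ G (t v) ∧
      (∀ k : ℤ, CM v.val (x ((m v : ℤ) * k, 0, 0)) (x 0)) ∧
      ∃ p q : Fin g → ℤ, (∃ i, ¬ (l : ℤ) ∣ p i ∨ ¬ (l : ℤ) ∣ q i) ∧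
        ∀ u : ℤ, TC v.val ((qv v ^ ev v)⁻¹) (x (u • ((0, p, q) : Idx g))) (x 0)) →
    Real.log (Height.mulHeight (x 0)) ≤ σ * ∑ v ∈ S, (ev v : ℝ) / (t v : ℝ) * lN v →
    (∃ M : ℕ, 1 ≤ M ∧ M ≤ B ∧ InLat τ (fun i => (M : ℂ) * z i)) ∨
    ∃ F : Fin (2 ^ g * l ^ (2 * g) - n * l ^ (2 * g - 1)) → (Fin g → ℂ) → ℂ,
      LinearIndependent ℂ F ∧ ∀ j, Differentiable ℂ (F j) ∧
      (∀ (w : Fin g → ℂ) (P Q : Fin g → ℤ),
        F j (fun i => w i + ((P i : ℂ) + ∑ j, τ i j * (Q j : ℂ)))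
          = Complex.exp (-(8 * Real.pi * Complex.I * (l : ℂ) ^ 2
                * ∑ i, ∑ j, (Q i : ℂ) * τ i j * (Q j : ℂ))
              - 16 * Real.pi * Complex.I * (l : ℂ) ^ 2 * ∑ i, (Q i : ℂ) * w i) * F j w) ∧
      ∀ k : ℕ, F j (fun i => (k : ℂ) * ((c : ℂ) * z i)) = 0

/-- **Row AS3** (assembly; uses SzgStatement (Helper57_SZG/Final.lean, proved), NOR, HLB, SLC). PROOF. Let
σ' = max σ 0. n from SZG (g, 2 σ'). Given l: E0 = a natural number >= 2 (2 l^(2g) σ' + 1),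
E1 = the maximum of G (t), t <= E0 (`(Finset.range (E0 + 1)).sup G`), c = E1!. Given
d: B1 from SZG (g, 2 σ'; l, d), C' = l^(2g) (2g+1) d log 2, B2 from NOR (g, d, exp (σ' C')),
B = max (c B1) B2. Let K, .. be given, Λ = sum_S (ev/t) lN >= 0. If Λ <= C': log H(x 0) <= σ' C', NOR for
`fun k => x (k,0,0)` gives M <= B2. If Λ > C': HLB (u = 1 in the hypothesis, `1 • (0,p,q)`):
`sum_S ev lN <= l^(2g) 2 σ' Λ + C' <= (2 l^(2g) σ' + 1) Λ <= (E0/2) Λ`. SLC (with m := t):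
Λ <= 2 sum_(S') ev lN, S' = {v in S : t v <= E0}, so log H(x 0) <= σ' Λ <= 2 σ' sum_(S') ev lN. For
v in S': m v <= G (t v) <= E1, 1 <= m v, so `m v` divides c. SZG for z' = c z,
x' (k,p,q) = x (c k, p, q) (gam of z' at (k,p,q) = gam of z at (c k,p,q)), S': CM: `m v` divides c, so
c k = m v ((c / m v) k); `x' (u•(0,p,q)) = x (0, u p, u q)`, `x' 0 = x 0`. Either M (c z) in the lattice,
1 <= M <= B1: M c; or the functions F. -/
def As3Stmt : Prop := Szg3Statement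

end Pool.Agent.SZG
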