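import Pool.Agent.SZG.StmtsM
import Pool.Agent.SZG.StmtsD2

/-!
SZG, block S: output of the local part, from the rows of StmtsM and the algebra rows SHO, SEL, RAL
(StmtsD, StmtsR, all proved). Complete proofs in the docstrings.
-/

namespace Pool.Agent.SZG

open scoped BigOperators
open Pool.Agent.THS

/-- **Row LSH** (the normalised functions are short; uses FNB, FEX, SEL, SHO). PROOF. SHO (StmtsD) for
ι = Ch g, n = 2^g, `r a k u = fn T A R Z δ o k u a`: integrality, congruence with u = 0, value 1 at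
(o k, k, 0) from FNB; (h4): FEX with w = 0 for the pair (a, d), selection (SEL (5)) over d = o k:
length 2^g * 2^g; (h5): FEX with w = 1, selection over the pair (o (k+1), o (k-1)) (index type
Ch g × Ch g): length 4^g * 2^g (pad both to a common c0: THS.Shm (1)). Second claim: selection
`a = o k` of the functions, composed with `k -> l k`, `u -> -u` (THS.Shm (5)); it is 1 modulo θ by
FNB. -/
def LshStmt : Prop :=
  ∀ g L : ℕ, ∃ n : ℕ, ∀ (K I : Type) [Field K] [AddCommGroup I] (v : AbsoluteValue K ℝ) (θ ρ : ℝ)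
    (E : ℕ) (L0 : AddSubgroup I) (c : I → K) (e : I → I → K) (s : K) (T : I → Ch g → K)
    (x : I → Ch g × Ch g → K) (W : I → ℝ) (X : I → I → ℝ) (Z δ : I) (A R : K) (o : ℤ → Ch g)
    (l : ℕ), 0 < ρ → ρ < 1 → (∀ y : K, v y < 1 → v y ≤ ρ) →
    LocD K I v θ g E L0 c e s T x W X Z δ → A ≠ 0 → R ≠ 0 → v A = W δ → v R = X Z δ ^ 2 →
    (∀ (k u : ℤ) (a : Ch g),
      v (T (k • Z + (2 * u) • δ) a - A ^ (4 * u ^ 2) * R ^ (k * u) * T (k • Z) a)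
        ≤ θ * (nv v (T 0) * W (k • Z + (2 * u) • δ))) →
    (∀ k, v (T (k • Z) (o k)) = nv v (T (k • Z))) →
    Short v n (θ ^ L) (fun k u => fn T A R Z δ o ((l : ℤ) * k) (-u) (o ((l : ℤ) * k))) ∧
      ∀ k u : ℤ, v (fn T A R Z δ o ((l : ℤ) * k) (-u) (o ((l : ℤ) * k)) - 1) ≤ θ

/-- **Row RBD** (the size hypothesis of RAL; uses XUB, WXC). PROOF. k, u integers, i1 = (l k)•Z + b1,
j1 = b1 + (2u)•δ. XUB (3): `v s |x_i1||x_j1| <= |T 0|^2 W i1^2 W j1^2 = |T 0|^2 W(i1+j1) W(i1-j1)`;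
`i1 + j1 = (l k)•Z + (2•b1 + (2u)•δ)`, `i1 - j1 = (l k)•Z - (2u)•δ`:
`W(i1+j1) = W((l k)•Z) W(2•b1 + (2u)•δ) X(Z,b1)^(2lk) X(Z,δ)^(2ulk)`,
`W(i1-j1) = W((l k)•Z) W((2u)•δ) X(Z,δ)^(-2ulk)`. The other factors:
`v (ξ^(-k)) = X(Z,b1)^(-2lk)` (ξ = e((2l)•b1, Z), in L0), `v τ = |T 0| W((l k)•Z)`,
`v ((A^4)^(-u^2)) = W((2u)•δ)^(-1)`. So the product is at most `(|T 0| W((l k)•Z)) W(2•b1 + (2u)•δ)`. -/
def RbdStmt : Prop :=
  ∀ (K I : Type) [Field K] [AddCommGroup I] (v : AbsoluteValue K ℝ) (θ : ℝ) (g E : ℕ)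
    (L0 : AddSubgroup I) (c : I → K) (e : I → I → K) (s : K) (T : I → Ch g → K)
    (x : I → Ch g × Ch g → K) (W : I → ℝ) (X : I → I → ℝ) (Z δ : I) (A : K) (o : ℤ → Ch g)
    (l : ℕ) (b1 : I),
    LocD K I v θ g E L0 c e s T x W X Z δ → A ≠ 0 → v A = W δ →
    (∀ k, v (T (k • Z) (o k)) = nv v (T (k • Z))) → (l : ℤ) • b1 ∈ L0 →
    ∀ (ab : Ch g × Ch g) (k u : ℤ),
      v (s * x (((l : ℤ) * k) • Z + b1) ab * (e ((2 * (l : ℤ)) • b1) Z) ^ (-k)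
          * (T (((l : ℤ) * k) • Z) (o ((l : ℤ) * k)))⁻¹)
        * v (x (b1 + (2 * u) • δ) ab * (A ^ 4) ^ (-(u ^ 2)))
      ≤ (nv v (T 0) * W (((l : ℤ) * k) • Z)) * W ((2 : ℤ) • b1 + (2 * u) • δ)

/-- **Row LOR** (OUTPUT of the local part; uses NFO, RLE, LSH, RBD, RGI, RAL, QSA). PROOF. Let o k be a
maximal coordinate of T (k•Z); A, R from NFO. RAL (StmtsR) with `U a k u = T_a((l k)•Z + (2•b1 + (2u)•δ))`,
`V d k u = T_d((l k)•Z - (2u)•δ)` (RGI for i1 = (l k)•Z + b1, j1 = b1 + (2u)•δ and first index a + d,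
`rie`: `2^g U_a V_d = sum_b sgn b a (s x_(i1)(a+d,b) x_(j1)(a+d,b))`), `X k = x_(i1)`,
`Y u (a',b) = sgn b a' * x_(j1)(a',b)` (then `sgn b d * sgn b (a+d) = sgn b a`), s0 = s, κ = A^4, ρ = R^l, η = e((2l)•δ, Z), ξ = e((2l)•b1, Z),
o replaced by `k ↦ o (l k)`, `τ k = T_((l k)•Z)(o (l k))`, f from LSH (`V (o k) k u = κ^(u^2) ρ^(-k u) τ f`
is the definition of fn: `fn (l k) (-u) = T/(A^(4u^2) R^(-l k u) T_(o))`), χ k = |T 0| W((l k)•Z),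
ω u = W(2•b1 + (2u)•δ), RBD, RLE (`v (ρ/η - 1) <= θ`). The output function
`ξ^(-k) η^(-(k u)) U a k u` is `Mp l e T Z (2•b1 + (2u)•δ) k a` for natural k:
`l•b = (2l)•b1 + u•((2l)•δ)`, so `e (l•b) Z = ξ η^u` (QSA). -/
def LorStmt : Prop :=
  ∀ g L : ℕ, ∃ n : ℕ, ∀ (K I : Type) [Field K] [AddCommGroup I] (v : AbsoluteValue K ℝ) (θ ρ : ℝ)
    (E : ℕ) (L0 : AddSubgroup I) (c : I → K) (e : I → I → K) (s : K) (T : I → Ch g → K)
    (x : I → Ch g × Ch g → K) (W : I → ℝ) (X : I → I → ℝ) (Z δ : I) (l : ℕ),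
    0 < ρ → ρ < 1 → (∀ y : K, v y < 1 → v y ≤ ρ) →
    LocD K I v θ g E L0 c e s T x W X Z δ → (l : ℤ) • δ ∈ L0 →
    ∀ b1 : I, (l : ℤ) • b1 ∈ L0 → ∀ a : Ch g,
    ∃ (P : Fin n → ℕ → K) (Q : Fin n → ℤ → K),
      (∀ m k u, v (Q m u) * v (P m k)
        ≤ W ((2 : ℤ) • b1 + (2 * u) • δ) * (nv v (T 0) * W ((l * k) • Z))) ∧
      ∀ (k : ℕ) (u : ℤ), v (Mp l e T Z ((2 : ℤ) • b1 + (2 * u) • δ) k a - ∑ m, Q m u * P m k)
        ≤ θ ^ L * (W ((2 : ℤ) • b1 + (2 * u) • δ) * (nv v (T 0) * W ((l * k) • Z)))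

end Pool.Agent.SZG
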