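import Pool.Agent.SZG.StmtsF

/-!
SZG, block Y: ALL torsion points. At every place `v` of `S` there is an integer `m_v >= 1` such that
`m_v z` is in the identity component (`m_v` = order of P in the component group), and the hypothesis is
`log H(x_0) <= σ sum_S (e_v/m_v) log Nv` (true Szpiro ratio: for toric rank 1 over the field of
definition `m_v` divides `n_v = 8 e_v`, so `e_v/m_v >= 1/8`). Complete proofs in the docstrings.
-/

namespace Pool.Agent.SZG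

open scoped BigOperators
open Pool.Agent.THS

/-- **Row XPR** (periods of the points; uses THS.Tpe). PROOF. gam (k, p + lP, q + lQ) = gam (k,p,q) + P + tau Q,
and `Vab τ a b (w + P + tau Q) = factor * Vab τ a b w`, the factor
`exp(- pi i (2Q).tau(2Q) - 2 pi i (2Q).(2w + b/2)) exp(2 pi i (a/2).(2P)) = exp(-4 pi i Q.tau Q
 - 8 pi i Q.w)` (TPE (iii) with q -> 2Q at the point 2w + 2P + b/2, TPE (ii) with p -> 2P; Q.b, a.P, Q.P
integers) does not depend on a, b. So the images of both vectors under φ are multiples of the same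
vector (nonzero, as x i <> 0); the quotient of two coordinates with x i ab <> 0 gives κ in K. -/
def XprStmt : Prop :=
  ∀ (g : ℕ) (K : Type) [Field K] (φ : K →+* ℂ) (τ : Matrix (Fin g) (Fin g) ℂ), Siegel τ →
    ∀ (z : Fin g → ℂ) (l : ℕ), 0 < l →
    ∀ x : Idx g → Ch g × Ch g → K, (∀ i, x i ≠ 0) →
    (∀ i, ∃ μ : ℂ, ∀ ab, φ (x i ab) = μ * Vab τ ab.1 ab.2 (gam τ z l i)) →
    ∀ (k : ℤ) (p q P Q : Fin g → ℤ), ∃ κ : K, κ ≠ 0 ∧ ∀ ab,
      x (k, fun i => p i + (l : ℤ) * P i, fun i => q i + (l : ℤ) * Q i) ab = κ * x (k, p, q) ab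

/-- **Row XNE** (an l-torsion point is not 0, and has small height; uses THS.Thd, THS.Prp, THS.Hxb).
PROOF. THD for the point z' = (p + tau q)/l, N = l, and the sequence `fun k => x (0, k p, k q)`
(gam (0, k p, k q) = k z') gives α, β, T with TSeq (so NSeq). HXB for k = 1: the height. If all
minors of x (0,p,q), x (0,0,0) vanish, x (0,p,q) = l' x (0,0,0) (nonzero vectors), PRP with j = 1,
i = 0: T 1 is a multiple of T 0, THD (M = 1): z' = P' + tau Q'. Then (p - l P') + tau (q - l Q') = 0,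
imaginary parts: (Im tau)(q - l Q') = 0, Im tau is invertible (positive definite), q = l Q',
p = l P': contradiction. -/
def XneStmt : Prop :=
  ∀ (g : ℕ) (K : Type) [Field K] [NumberField K] (φ : K →+* ℂ)
    (τ : Matrix (Fin g) (Fin g) ℂ), Siegel τ →
    ∀ (z : Fin g → ℂ) (l : ℕ), 0 < l →
    ∀ x : Idx g → Ch g × Ch g → K, (∀ i, x i ≠ 0) →
    (∀ i, ∃ μ : ℂ, ∀ ab, φ (x i ab) = μ * Vab τ ab.1 ab.2 (gam τ z l i)) →
    ∀ (p q : Fin g → ℤ), (∃ i, ¬ (l : ℤ) ∣ p i ∨ ¬ (l : ℤ) ∣ q i) →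
      (∃ ab cd, x (0, p, q) ab * x 0 cd - x (0, p, q) cd * x 0 ab ≠ 0) ∧
      Height.mulHeight (x (0, p, q))
        ≤ 4 ^ (g * Module.finrank ℚ K) * Height.mulHeight (x 0)

/-- **Row MNH** (a minor and the product formula; uses PFG (StmtsD), THS.Hcp). PROOF. Let
D = y p * y' q - y q * y' p <> 0. PFG with Y = the vector (y i * y' j) of index type ι × ι (nonzero;
nv v Y = nv v y * nv v y'), w = 1, n = 1, m = 0, r = 1, C = 2, `p v = qv v ^ ev v`: infinite places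
`v D <= 2 |y||y'|`, finite places `v D <= |y||y'|` (ultrametric), places of S: `v D <= (qv^ev)⁻¹ |y||y'|`.
So `prod_S qv^ev <= 2^[K:Q] H(Y)`, and `H(Y) <= H(y) H(y')` (HCP with m = 1, n = 2, X = ![Y] and the two
vectors y, y' over the same finite index type, β = 1, C = 1, q = 0; or Mathlib). Logarithms
(lN v = log (qv v), definition). -/
def MnhStmt : Prop :=
  ∀ (K ι : Type) [Field K] [NumberField K] [Finite ι] (y y' : ι → K)
    (S : Finset (NumberField.FinitePlace K)) (ev : NumberField.FinitePlace K → ℕ),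
    (∃ p q, y p * y' q - y q * y' p ≠ 0) → (∀ v ∈ S, TC v.val ((qv v ^ ev v)⁻¹) y y') →
    ∑ v ∈ S, (ev v : ℝ) * lN v ≤ (Module.finrank ℚ K : ℝ) * Real.log 2
      + Real.log (Height.mulHeight y) + Real.log (Height.mulHeight y')

/-- **Row HLB** (S bounds the height from below; uses XPR, XNE, MNH). PROOF. Partition S by the class of
(p_v,q_v) in ((Z/l)^g)^2 (l^(2g) classes; `Finset.sum_fiberwise`). For a nonempty class with
representative (p,q) = (p_v0, q_v0): for every v in it x (0,p_v,q_v) = κ x (0,p,q) (XPR), so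
TC v θ (x (0,p,q)) (x 0) (TC is invariant under scalars); XNE and MNH:
`sum over the class of ev lN <= D log 2 + 2 log H(x 0) + g D log 4`, D = [K:Q]. Sum over the classes
(every class contributes at most this bound, which is >= 0). -/
def HlbStmt : Prop :=
  ∀ (g : ℕ) (K : Type) [Field K] [NumberField K] (φ : K →+* ℂ)
    (τ : Matrix (Fin g) (Fin g) ℂ), Siegel τ →
    ∀ (z : Fin g → ℂ) (l : ℕ), 0 < l →
    ∀ x : Idx g → Ch g × Ch g → K, (∀ i, x i ≠ 0) →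
    (∀ i, ∃ μ : ℂ, ∀ ab, φ (x i ab) = μ * Vab τ ab.1 ab.2 (gam τ z l i)) →
    ∀ (S : Finset (NumberField.FinitePlace K)) (ev : NumberField.FinitePlace K → ℕ),
    (∀ v ∈ S, ∃ p q : Fin g → ℤ, (∃ i, ¬ (l : ℤ) ∣ p i ∨ ¬ (l : ℤ) ∣ q i) ∧
        TC v.val ((qv v ^ ev v)⁻¹) (x (0, p, q)) (x 0)) →
    ∑ v ∈ S, (ev v : ℝ) * lN v ≤ (l : ℝ) ^ (2 * g) *
      (2 * Real.log (Height.mulHeight (x 0)) + (2 * g + 1) * Module.finrank ℚ K * Real.log 2)

/-- **Row SLC** (selection; real numbers). PROOF. Let Λ = sum_S (e/m) w. On S minus S' (m > E0, so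
1/m <= 1/E0): the sum of (e/m) w is <= (1/E0) sum_S e w <= Λ/2; so the sum over S' is >= Λ/2, and
e >= e/m there (m >= 1). -/
def SlcStmt : Prop :=
  ∀ (α : Type) [DecidableEq α] (S : Finset α) (e m : α → ℕ) (w : α → ℝ) (E0 : ℕ), 0 < E0 →
    (∀ v ∈ S, 0 ≤ w v) → (∀ v ∈ S, 1 ≤ m v) →
    ∑ v ∈ S, (e v : ℝ) * w v ≤ (E0 : ℝ) / 2 * ∑ v ∈ S, (e v : ℝ) / (m v : ℝ) * w v →
    ∑ v ∈ S, (e v : ℝ) / (m v : ℝ) * w v ≤ 2 * ∑ v ∈ S.filter (fun v => m v ≤ E0), (e v : ℝ) * w v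

/-- **The theorem for all torsion points.** -/
def Szg2Statement : Prop :=
  ∀ (g : ℕ) (σ : ℝ), ∃ n : ℕ, ∀ l : ℕ, l.Prime → Odd l → ∃ c : ℕ, 1 ≤ c ∧ ∀ d : ℕ, ∃ B : ℕ,
    ∀ (K : Type) [Field K] [NumberField K], Module.finrank ℚ K ≤ d →
    ∀ (φ : K →+* ℂ) (τ : Matrix (Fin g) (Fin g) ℂ), Siegel τ →
    ∀ z : Fin g → ℂ, (∃ N : ℕ, 0 < N ∧ InLat τ (fun i => (N : ℂ) * z i)) →
    ∀ x : Idx g → Ch g × Ch g → K, (∀ i, x i ≠ 0) →
    (∀ i, ∃ μ : ℂ, ∀ ab, φ (x i ab) = μ * Vab τ ab.1 ab.2 (gam τ z l i)) →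
    ∀ (S : Finset (NumberField.FinitePlace K)) (ev m : NumberField.FinitePlace K → ℕ),
    (∀ v ∈ S, v.val 2 = 1 ∧ 1 ≤ ev v ∧ 1 ≤ m v ∧
      (∀ k : ℤ, CM v.val (x ((m v : ℤ) * k, 0, 0)) (x 0)) ∧
      ∃ p q : Fin g → ℤ, (∃ i, ¬ (l : ℤ) ∣ p i ∨ ¬ (l : ℤ) ∣ q i) ∧
        ∀ u : ℤ, TC v.val ((qv v ^ ev v)⁻¹) (x (u • ((0, p, q) : Idx g))) (x 0)) →
    Real.log (Height.mulHeight (x 0)) ≤ σ * ∑ v ∈ S, (ev v : ℝ) / (m v : ℝ) * lN v →
    (∃ M : ℕ, 1 ≤ M ∧ M ≤ B ∧ InLat τ (fun i => (M : ℂ) * z i)) ∨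
    ∃ F : Fin (2 ^ g * l ^ (2 * g) - n * l ^ (2 * g - 1)) → (Fin g → ℂ) → ℂ,
      LinearIndependent ℂ F ∧ ∀ j, Differentiable ℂ (F j) ∧
      (∀ (w : Fin g → ℂ) (P Q : Fin g → ℤ),
        F j (fun i => w i + ((P i : ℂ) + ∑ j, τ i j * (Q j : ℂ)))
          = Complex.exp (-(8 * Real.pi * Complex.I * (l : ℂ) ^ 2
                * ∑ i, ∑ j, (Q i : ℂ) * τ i j * (Q j : ℂ))
              - 16 * Real.pi * Complex.I * (l : ℂ) ^ 2 * ∑ i, (Q i : ℂ) * w i) * F j w) ∧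
      ∀ k : ℕ, F j (fun i => (k : ℂ) * ((c : ℂ) * z i)) = 0

/-- **Row AS2** (assembly; uses SzgStatement (Helper57_SZG/Final.lean, proved), NOR, HLB, SLC). PROOF. Let
σ' = max σ 0. n from SZG (g, 2 σ'). Given l: E0 = a natural number >= 2 (2 l^(2g) σ' + 1), c = E0!. Given
d: B1 from SZG (g, 2 σ'; l, d), C' = l^(2g) (2g+1) d log 2, B2 from NOR (g, d, exp (σ' C')),
B = max (c B1) B2. Let K, .. be given, Λ = sum_S (ev/m) lN >= 0. If Λ <= C': log H(x 0) <= σ' C', NOR for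
`fun k => x (k,0,0)` gives M <= B2. If Λ > C': HLB (u = 1 in the hypothesis, `1 • (0,p,q)`):
`sum_S ev lN <= l^(2g) 2 σ' Λ + C' <= (2 l^(2g) σ' + 1) Λ <= (E0/2) Λ`. SLC: Λ <= 2 sum_(S') ev lN,
S' = {v in S : m v <= E0}, so log H(x 0) <= σ' Λ <= 2 σ' sum_(S') ev lN. SZG for z' = c z,
x' (k,p,q) = x (c k, p, q) (gam of z' at (k,p,q) = gam of z at (c k,p,q)), S': CM: `m v` divides c, so
c k = m v ((c / m v) k); `x' (u•(0,p,q)) = x (0, u p, u q)`, `x' 0 = x 0`. Either M (c z) in the lattice,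
1 <= M <= B1: M c; or the functions F. -/
def As2Stmt : Prop := Szg2Statement

end Pool.Agent.SZG
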